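import Pool.Agent.Y749.Rig.Tst

/-! # Smooth functions of compact support are admissible test functions -/

set_option autoImplicit false

open MeasureTheory Set Filter Topology

namespace Pool.Agent.K6.H57.PN

open Pool.Agent.Y749.Rig (FL fl Adm)

/-- the exponential -/
noncomputable def ex (z : ℂ) (α : ℝ) : ℂ := Complex.exp (2 * Real.pi * Complex.I * α * z)

lemma ex_deriv (z : ℂ) (α : ℝ) :
    HasDerivAt (ex z) (2 * Real.pi * Complex.I * z * ex z α) α := by
  unfold ex
  have h1 : HasDerivAt (fun α : ℝ => (2 * Real.pi * Complex.I * (α : ℂ) * z))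
      (2 * Real.pi * Complex.I * z) α := by
    have h2 : HasDerivAt (fun α : ℝ => (α : ℂ)) 1 α := Complex.ofRealCLM.hasDerivAt
    have h3 := (h2.const_mul (2 * Real.pi * Complex.I)).mul_const z
    simpa using h3
  refine h1.cexp.congr_deriv ?_
  ring

lemma ex_cont (z : ℂ) : Continuous (ex z) := by unfold ex; fun_prop

lemma ex_norm (z : ℂ) (α : ℝ) : ‖ex z α‖ = Real.exp (-(2 * Real.pi * α * z.im)) := by
  unfold ex
  rw [Complex.norm_exp]
  congr 1
  simp

/-- integration by parts -/
lemma FL_parts {f f' : ℝ → ℝ} (hf : ∀ x, HasDerivAt f (f' x) x) (hc : Continuous f')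
    (hs : HasCompactSupport f) (z : ℂ) :
    (2 * Real.pi * Complex.I * z) * FL f z = - FL f' z := by
  have hfc : Continuous f := continuous_iff_continuousAt.2 fun x => (hf x).continuousAt
  have hs' : HasCompactSupport f' := by
    have : f' = deriv f := funext fun x => (hf x).deriv.symm
    rw [this]
    exact hs.deriv
  have hF : ∀ g : ℝ → ℝ, Continuous g → HasCompactSupport g →
      Integrable (fun α : ℝ => (g α : ℂ) * ex z α) := by
    intro g hg hgs
    refine Continuous.integrable_of_hasCompactSupport ?_ ?_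
    · exact (Complex.continuous_ofReal.comp hg).mul (ex_cont z)
    · exact (hgs.comp_left (g := fun x : ℝ => (x : ℂ)) (by simp)).mul_right
  have h := integral_mul_deriv_eq_deriv_mul_of_integrable
    (u := fun α : ℝ => (f α : ℂ)) (v := ex z) (u' := fun α : ℝ => (f' α : ℂ))
    (v' := fun α => 2 * Real.pi * Complex.I * z * ex z α)
    (fun x _ => (hf x).ofReal_comp) (fun x _ => ex_deriv z x) (by
      have := (hF f hfc hs).const_mul (2 * Real.pi * Complex.I * z)
      refine this.congr (ae_of_all _ fun x => ?_)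
      simp only [Pi.mul_apply]
      ring) (hF f' hc hs') (hF f hfc hs)
  unfold FL
  rw [← integral_const_mul]
  have e : ∀ α : ℝ, 2 * Real.pi * Complex.I * z * ((f α : ℂ) * Complex.exp (2 * Real.pi *
      Complex.I * α * z)) = (f α : ℂ) * (2 * Real.pi * Complex.I * z * ex z α) := by
    intro α
    unfold ex
    ring
  simp_rw [e]
  exact h

lemma FL_norm_le {f : ℝ → ℝ} {κ : ℝ} (hc : Continuous f) (hs : HasCompactSupport f)
    (hk : ∀ x, κ < |x| → f x = 0) (z : ℂ) :
    ‖FL f z‖ ≤ (∫ x, |f x|) * Real.exp (2 * Real.pi * κ * |z.im|) := by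
  have hpi := Real.pi_pos
  unfold FL
  refine (norm_integral_le_integral_norm _).trans ?_
  rw [← integral_mul_const]
  refine integral_mono_of_nonneg (ae_of_all _ fun x => norm_nonneg _) ?_ (ae_of_all _ fun x => ?_)
  · have : Integrable f := hc.integrable_of_hasCompactSupport hs
    exact this.abs.mul_const _
  · simp only [norm_mul, Complex.norm_real, Real.norm_eq_abs]
    by_cases hx : κ < |x|
    · rw [hk x hx]; simp
    · push Not at hx
      refine mul_le_mul_of_nonneg_left ?_ (abs_nonneg _)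
      have := ex_norm z x
      unfold ex at this
      rw [this, Real.exp_le_exp]
      have h1 : -(x * z.im) ≤ |x| * |z.im| := by
        rw [← abs_mul]
        exact neg_le_abs _
      have h2 : |x| * |z.im| ≤ κ * |z.im| := mul_le_mul_of_nonneg_right hx (abs_nonneg _)
      nlinarith

lemma vanish_deriv {f : ℝ → ℝ} {κ : ℝ} (h : ∀ x, κ < |x| → f x = 0) :
    ∀ x, κ < |x| → deriv f x = 0 := by
  intro x hx
  have hev : f =ᶠ[𝓝 x] fun _ => 0 := by
    have : {y : ℝ | κ < |y|} ∈ 𝓝 x := (isOpen_lt continuous_const continuous_abs).mem_nhds hx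
    filter_upwards [this] with y hy
    exact h y hy
  rw [hev.deriv_eq]
  simp

/-- **smooth functions are admissible** -/
theorem adm_of {ψ : ℝ → ℝ} {κ : ℝ} (h2 : ContDiff ℝ 2 ψ) (he : ∀ x, ψ (-x) = ψ x)
    (hs : ∀ x, κ ≤ |x| → ψ x = 0) : Adm κ ψ := by
  have hcs : HasCompactSupport ψ := by
    refine HasCompactSupport.of_support_subset_isCompact (isCompact_Icc (a := -κ) (b := κ)) ?_
    intro x hx
    by_contra hcon
    apply hx
    apply hs
    by_contra h2
    push Not at h2
    exact hcon ⟨(abs_lt.1 h2).1.le, (abs_lt.1 h2).2.le⟩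
  have h1 : ContDiff ℝ 1 (deriv ψ) := by
    have := (contDiff_succ_iff_deriv (n := 1) (f := ψ)).1 (by simpa [one_add_one_eq_two] using h2)
    exact this.2.2
  have hd1 : ∀ x, HasDerivAt ψ (deriv ψ x) x := fun x =>
    ((h2.differentiable (by norm_num)) x).hasDerivAt
  have hd2 : ∀ x, HasDerivAt (deriv ψ) (deriv (deriv ψ) x) x := fun x =>
    ((h1.differentiable (by norm_num)) x).hasDerivAt
  have hc1 : Continuous (deriv ψ) := h1.continuous
  have hc2 : Continuous (deriv (deriv ψ)) := h1.continuous_deriv (by norm_num)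
  have hk0 : ∀ x, κ < |x| → ψ x = 0 := fun x hx => hs x hx.le
  have hk2 := vanish_deriv (vanish_deriv hk0)
  refine ⟨he, ?_, hs, ?_⟩
  · obtain ⟨K, hK⟩ := ContDiff.lipschitzWith_of_hasCompactSupport hcs (h2.of_le (by norm_num) :
      ContDiff ℝ 1 ψ) (by norm_num)
    refine ⟨K, fun x y => ?_⟩
    have := hK.dist_le_mul x y
    rwa [Real.dist_eq, Real.dist_eq] at this
  · refine ⟨(∫ x, |ψ x|) + ∫ x, |deriv (deriv ψ) x|, fun x y => ?_⟩
    have hpi := Real.pi_gt_three
    obtain ⟨z, hz⟩ : ∃ z : ℂ, z = x + y * Complex.I := ⟨_, rfl⟩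
    rw [← hz]
    have hre : z.re = x := by rw [hz]; simp
    have him : z.im = y := by rw [hz]; simp
    have a1 := FL_norm_le h2.continuous hcs hk0 z
    have a2 := FL_norm_le hc2 hcs.deriv.deriv hk2 z
    have b1 := FL_parts hd1 hc1 hcs z
    have b2 := FL_parts hd2 hc2 hcs.deriv z
    have b3 : (2 * Real.pi * Complex.I * z) ^ 2 * FL ψ z = FL (deriv (deriv ψ)) z := by
      rw [sq, mul_assoc, b1, mul_neg, b2, neg_neg]
    have b4 : ‖(2 * Real.pi * Complex.I * z) ^ 2‖ * ‖FL ψ z‖ = ‖FL (deriv (deriv ψ)) z‖ := by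
      rw [← norm_mul, b3]
    have b5 : x ^ 2 ≤ ‖(2 * Real.pi * Complex.I * z) ^ 2‖ := by
      rw [norm_pow, norm_mul, norm_mul, norm_mul]
      simp only [Complex.norm_ofNat, Complex.norm_real, Complex.norm_I, mul_one, Real.norm_eq_abs,
        abs_of_pos Real.pi_pos]
      have c1 : |x| ≤ ‖z‖ := by rw [← hre]; exact Complex.abs_re_le_norm z
      rw [← sq_abs x]
      apply pow_le_pow_left₀ (abs_nonneg _)
      nlinarith [norm_nonneg z]
    rw [him] at a1 a2
    have hp : (0 : ℝ) < 1 + x ^ 2 := by positivity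
    rw [le_div_iff₀ hp]
    nlinarith [norm_nonneg (FL ψ z)]

end Pool.Agent.K6.H57.PN
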