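import Pool.Agent.K6.H57.PN.Cmb

/-! # From pair sums to covariances: asymptotics -/

set_option autoImplicit false

open MeasureTheory Set Filter Topology

namespace Pool.Agent.K6.H57.PN

open Pool.Agent.Y749.Rig (fl)
open Pool.Agent.R846.NC (cov LogGrowth sum_rule log_sq_small growth_bound)

/-- moments -/
def Mom (a : ℕ → ℝ) : Prop := ∀ q : ℕ, ∃ C : ℝ, 0 ≤ C ∧ ∀ k : ℕ, 1 ≤ k → ∀ᶠ N : ℕ in atTop,
  Av (fun n => |dd a k n| ^ q) N ≤ C * (1 + Real.log k) ^ q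

/-- mean zero -/
def Mean (a : ℕ → ℝ) : Prop := ∀ (k : ℕ) (ε : ℝ), 0 < ε → ∀ᶠ N : ℕ in atTop,
  |Av (fun n => dd a k n) N| ≤ ε

/-- pair sums -/
def Pr (a : ℕ → ℝ) (Φ : ℝ → ℝ) (h : ℝ) : Prop := ∀ ε : ℝ, 0 < ε → ∃ K0 : ℕ, ∀ K : ℕ, K0 ≤ K →
  ∀ᶠ N : ℕ in atTop, |Av (fun n => gs h Φ 0 + 2 * ∑ k ∈ Finset.Icc 1 K, gs h Φ (k + dd a k n)) N -
    (h ^ 2 * Φ 0 + J Φ)| ≤ ε

lemma log6 {k : ℕ} (hk : 1 ≤ k) : (1 + Real.log k) ^ 6 ≤ 729 * (k : ℝ) ^ 2 := by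
  have hk0 : (0 : ℝ) < k := by exact_mod_cast hk
  have hk1 : (1 : ℝ) ≤ k := by exact_mod_cast hk
  obtain ⟨x, hx⟩ : ∃ x : ℝ, x = (k : ℝ) ^ (1 / 3 : ℝ) := ⟨_, rfl⟩
  have hx0 : 0 < x := by rw [hx]; positivity
  have hx3 : x ^ 3 = k := by
    rw [hx, ← Real.rpow_natCast, ← Real.rpow_mul hk0.le]
    norm_num
  have hlog : Real.log k = 3 * Real.log x := by
    rw [← hx3, Real.log_pow]
    norm_num
  have h1 := Real.log_le_sub_one_of_pos hx0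
  have h2 : 0 ≤ 1 + Real.log k := by linarith [Real.log_nonneg hk1]
  have h3 : 1 + Real.log k ≤ 3 * x := by rw [hlog]; linarith
  calc (1 + Real.log k) ^ 6 ≤ (3 * x) ^ 6 := pow_le_pow_left₀ h2 h3 6
    _ = 729 * (x ^ 3) ^ 2 := by ring
    _ = 729 * (k : ℝ) ^ 2 := by rw [hx3]

lemma gs_big {Φ : ℝ → ℝ} {D h : ℝ} (hh : 0 < h) (hD0 : 0 < D)
    (hD : ∀ x : ℝ, |gs h Φ x| ≤ D * h ∧ |x| ^ 6 * |gs h Φ x| ≤ D * h ^ 7) {k : ℕ} (hk : 1 ≤ k)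
    (d : ℝ) : |gs h Φ (k + d)| ≤ 64 * D * (h ^ 7 + h * |d| ^ 6) / (k : ℝ) ^ 6 := by
  have hk0 : (0 : ℝ) < k := by exact_mod_cast hk
  rw [le_div_iff₀ (by positivity)]
  rcases le_or_gt |d| (k / 2) with h1 | h1
  · have h2 : (k : ℝ) / 2 ≤ |k + d| := by
      have := neg_abs_le d
      refine le_trans ?_ (le_abs_self _)
      linarith
    have h3 : ((k : ℝ) / 2) ^ 6 ≤ |k + d| ^ 6 := pow_le_pow_left₀ (by positivity) h2 6
    have h4 := (hD (k + d)).2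
    have h5 : ((k : ℝ) / 2) ^ 6 * |gs h Φ (k + d)| ≤ D * h ^ 7 :=
      (mul_le_mul_of_nonneg_right h3 (abs_nonneg _)).trans h4
    have h6 : 0 ≤ 64 * D * (h * |d| ^ 6) := by positivity
    have e : ((k : ℝ) / 2) ^ 6 = (k : ℝ) ^ 6 / 64 := by ring
    rw [e] at h5
    nlinarith
  · have h3 : ((k : ℝ) / 2) ^ 6 ≤ |d| ^ 6 := pow_le_pow_left₀ (by positivity) h1.le 6
    have e : ((k : ℝ) / 2) ^ 6 = (k : ℝ) ^ 6 / 64 := by ring
    rw [e] at h3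
    have h4 := (hD (k + d)).1
    have h5 : |gs h Φ (k + d)| * (k : ℝ) ^ 6 ≤ (D * h) * (64 * |d| ^ 6) :=
      mul_le_mul h4 (by linarith) (by positivity) (by positivity)
    have h6 : 0 ≤ 64 * D * h ^ 7 := by positivity
    linarith

lemma sum_inv4 (K M : ℕ) (hK : 1 ≤ K) :
    ∑ k ∈ Finset.Ioc K M, 1 / (k : ℝ) ^ 4 ≤ 1 / (K : ℝ) ^ 3 := by
  have hK0 : (0 : ℝ) < K := by exact_mod_cast hK
  have h1 : ∀ k ∈ Finset.Ioc K M, 1 / (k : ℝ) ^ 4 ≤ (1 / (K : ℝ) ^ 2) * ((k : ℝ) ^ 2)⁻¹ := by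
    intro k hk
    rw [Finset.mem_Ioc] at hk
    have hk0 : (K : ℝ) ≤ k := by exact_mod_cast hk.1.le
    have hk1 : (0 : ℝ) < k := by linarith
    rw [one_div, one_div, ← mul_inv]
    apply inv_anti₀ (by positivity)
    have : (K : ℝ) ^ 2 ≤ (k : ℝ) ^ 2 := by gcongr
    calc (K : ℝ) ^ 2 * (k : ℝ) ^ 2 ≤ (k : ℝ) ^ 2 * (k : ℝ) ^ 2 := by gcongr
      _ = (k : ℝ) ^ 4 := by ring
  refine (Finset.sum_le_sum h1).trans ?_
  rw [← Finset.mul_sum]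
  rcases le_or_gt M K with h2 | h2
  · rw [Finset.Ioc_eq_empty_of_le h2, Finset.sum_empty, mul_zero]; positivity
  have h3 := sum_Ioc_inv_sq_le_sub (α := ℝ) (k := K) (n := M) (by omega) h2.le
  have h4 : (0 : ℝ) ≤ (M : ℝ)⁻¹ := by positivity
  calc 1 / (K : ℝ) ^ 2 * ∑ i ∈ Finset.Ioc K M, ((i : ℝ) ^ 2)⁻¹ ≤ 1 / (K : ℝ) ^ 2 * (K : ℝ)⁻¹ :=
        mul_le_mul_of_nonneg_left (by linarith) (by positivity)
    _ = 1 / (K : ℝ) ^ 3 := by field_simp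

/-- the first absolute moment -/
noncomputable def m1 (Φ : ℝ → ℝ) : ℝ := ∫ α, |Φ α * (2 * Real.pi * α)|

/-- the second absolute moment -/
noncomputable def m2 (Φ : ℝ → ℝ) : ℝ := ∫ α, |Φ α * (2 * Real.pi * α) ^ 2|

lemma d1_le {B : ℝ} {Φ : ℝ → ℝ} (hΦ : Tf B Φ) (x : ℝ) : |d1 Φ x| ≤ m1 Φ := by
  unfold d1 m1
  rw [abs_neg]
  refine abs_integral_le_integral_abs.trans ?_
  refine integral_mono_of_nonneg (ae_of_all _ fun α => abs_nonneg _)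
    (hΦ.int_mul (by fun_prop)).abs (ae_of_all _ fun α => ?_)
  simp only
  rw [abs_mul]
  exact mul_le_of_le_one_right (abs_nonneg _) (Real.abs_sin_le_one _)

lemma d2_le {B : ℝ} {Φ : ℝ → ℝ} (hΦ : Tf B Φ) (x : ℝ) : |d2 Φ x| ≤ m2 Φ := by
  unfold d2 m2
  rw [abs_neg]
  refine abs_integral_le_integral_abs.trans ?_
  refine integral_mono_of_nonneg (ae_of_all _ fun α => abs_nonneg _)
    (hΦ.int_mul (by fun_prop)).abs (ae_of_all _ fun α => ?_)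
  simp only
  rw [abs_mul]
  exact mul_le_of_le_one_right (abs_nonneg _) (Real.abs_cos_le_one _)

lemma m1_nonneg (Φ : ℝ → ℝ) : 0 ≤ m1 Φ := integral_nonneg fun _ => abs_nonneg _

lemma m2_nonneg (Φ : ℝ → ℝ) : 0 ≤ m2 Φ := integral_nonneg fun _ => abs_nonneg _

/-- Taylor expansion of the scaled function -/
lemma gs_t3 {B : ℝ} {Φ : ℝ → ℝ} (hΦ : Tf B Φ) {h : ℝ} (hh : 0 < h) (x u : ℝ) :
    |gs h Φ (x + u) - gs h Φ x - d1 Φ (x / h) * u - d2 Φ (x / h) / h / 2 * u ^ 2| ≤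
      m3 Φ / h ^ 2 * |u| ^ 3 := by
  have h1 := taylor3 hΦ (x / h) (u / h)
  have e : gs h Φ (x + u) - gs h Φ x - d1 Φ (x / h) * u - d2 Φ (x / h) / h / 2 * u ^ 2 =
      h * (fl Φ (x / h + u / h) - fl Φ (x / h) - d1 Φ (x / h) * (u / h) -
        d2 Φ (x / h) / 2 * (u / h) ^ 2) := by
    unfold gs
    rw [add_div]
    field_simp
  rw [e, abs_mul, abs_of_pos hh]
  rw [abs_div, abs_of_pos hh] at h1
  refine (mul_le_mul_of_nonneg_left h1 hh.le).trans (le_of_eq ?_)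
  field_simp

lemma gs_t4 {B : ℝ} {Φ : ℝ → ℝ} (hΦ : Tf B Φ) {h : ℝ} (hh : 0 < h) (k : ℕ) :
    |gs h Φ ((k + 2 : ℕ) : ℝ) - 2 * gs h Φ ((k + 1 : ℕ) : ℝ) + gs h Φ k -
      d2 Φ (((k + 1 : ℕ) : ℝ) / h) / h| ≤ m4 Φ / h ^ 3 := by
  have h1 := taylor4 hΦ (((k + 1 : ℕ) : ℝ) / h) (1 / h)
  have e : gs h Φ ((k + 2 : ℕ) : ℝ) - 2 * gs h Φ ((k + 1 : ℕ) : ℝ) + gs h Φ k -
      d2 Φ (((k + 1 : ℕ) : ℝ) / h) / h =
      h * (fl Φ (((k + 1 : ℕ) : ℝ) / h + 1 / h) + fl Φ (((k + 1 : ℕ) : ℝ) / h - 1 / h) -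
        2 * fl Φ (((k + 1 : ℕ) : ℝ) / h) - d2 Φ (((k + 1 : ℕ) : ℝ) / h) * (1 / h) ^ 2) := by
    unfold gs
    have e1 : ((k + 1 : ℕ) : ℝ) / h + 1 / h = ((k + 2 : ℕ) : ℝ) / h := by push_cast; ring
    have e2 : ((k + 1 : ℕ) : ℝ) / h - 1 / h = (k : ℝ) / h := by push_cast; ring
    rw [e1, e2]
    field_simp
    ring
  rw [e, abs_mul, abs_of_pos hh]
  refine (mul_le_mul_of_nonneg_left h1 hh.le).trans (le_of_eq ?_)
  field_simp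

/-- **the covariances up to a large lag** -/
theorem cov_sum {a : ℕ → ℝ} (hg : LogGrowth a) (hm : Mean a) (hM : Mom a) {B : ℝ} {Φ : ℝ → ℝ}
    (hΦ : Tf B Φ) (hP : ∀ h : ℝ, B < h → Pr a Φ h) : ∃ Ct : ℝ, 0 ≤ Ct ∧ ∀ m : ℕ, 2 ≤ m →
    ∀ h : ℝ, (m : ℝ) ^ 2 / 4 ≤ h → h ≤ (m : ℝ) ^ 2 → B < h → ∀ᶠ N : ℕ in atTop,
    |cov a 0 N * gs h Φ 0 + 2 * ∑ k ∈ Finset.Icc 1 (m ^ 3), cov a k N * gs h Φ k - J Φ| ≤
      Ct * (1 + Real.log ((m ^ 3 + 1 : ℕ) : ℝ)) ^ 3 / m := by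
  obtain ⟨D, hD0, hD⟩ := dec6 hΦ
  obtain ⟨C2, hC20, hC2⟩ := hM 2
  obtain ⟨C3, hC30, hC3⟩ := hM 3
  obtain ⟨C6, hC60, hC6⟩ := hM 6
  have hm1 := m1_nonneg Φ
  have hm2 := m2_nonneg Φ
  have hm3 := m3_nonneg Φ
  have hm4 := m4_nonneg Φ
  refine ⟨2 * D * (C2 + 1) + 64 * m4 Φ * (C2 + 1) + 32 * m3 Φ * C3 + 5 +
    4 * (64 * D * (1 + 729 * C6)), by positivity, fun m hm2' h hh1 hh2 hBh => ?_⟩
  have hmr : (2 : ℝ) ≤ m := by exact_mod_cast hm2'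
  have hm0 : (0 : ℝ) < m := by linarith
  have hhpos : 0 < h := by nlinarith
  have hh1' : 1 ≤ h := by nlinarith
  obtain ⟨K1, hK1⟩ : ∃ K1 : ℕ, K1 = m ^ 3 := ⟨_, rfl⟩
  have hK1r : (K1 : ℝ) = (m : ℝ) ^ 3 := by rw [hK1]; push_cast; rfl
  have hK11 : 1 ≤ K1 := by rw [hK1]; exact Nat.one_le_pow _ _ (by omega)
  obtain ⟨l, hl⟩ : ∃ l : ℝ, l = 1 + Real.log ((K1 + 1 : ℕ) : ℝ) := ⟨_, rfl⟩
  have hl1 : 1 ≤ l := by
    rw [hl]
    have : 0 ≤ Real.log ((K1 + 1 : ℕ) : ℝ) := Real.log_natCast_nonneg _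
    linarith
  rw [← hK1, ← hl]
  have hlk : ∀ k : ℕ, 1 ≤ k → k ≤ K1 + 1 → 0 ≤ 1 + Real.log k ∧ 1 + Real.log k ≤ l := by
    intro k h1 h2
    refine ⟨by linarith [Real.log_natCast_nonneg k], ?_⟩
    rw [hl]
    have : Real.log k ≤ Real.log ((K1 + 1 : ℕ) : ℝ) :=
      Real.log_le_log (by exact_mod_cast h1) (by exact_mod_cast h2)
    linarith
  -- the small quantities
  obtain ⟨s, hs⟩ : ∃ s : ℝ, s = m1 Φ + m2 Φ := ⟨_, rfl⟩
  have hs0 : 0 ≤ s := by rw [hs]; positivity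
  obtain ⟨τ, hτ⟩ : ∃ τ : ℝ, τ = 1 / (m * ((1 + K1) * (1 + s))) := ⟨_, rfl⟩
  have hτ0 : 0 < τ := by rw [hτ]; positivity
  have hden : (0 : ℝ) < m * ((1 + K1) * (1 + s)) := by positivity
  have hτ1 : (K1 : ℝ) * (s * τ) ≤ 1 / m := by
    rw [hτ]
    have : (K1 : ℝ) * (s * (1 / (m * ((1 + K1) * (1 + s))))) =
        (K1 / (1 + K1)) * (s / (1 + s)) * (1 / m) := by field_simp
    rw [this]
    have h1 : (K1 : ℝ) / (1 + K1) ≤ 1 := by rw [div_le_one (by positivity)]; linarith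
    have h2 : s / (1 + s) ≤ 1 := by rw [div_le_one (by positivity)]; linarith
    have h3 : (K1 : ℝ) / (1 + K1) * (s / (1 + s)) ≤ 1 * 1 :=
      mul_le_mul h1 h2 (by positivity) (by norm_num)
    calc (K1 : ℝ) / (1 + K1) * (s / (1 + s)) * (1 / m) ≤ 1 * 1 * (1 / m) :=
          mul_le_mul_of_nonneg_right h3 (by positivity)
      _ = 1 / m := by ring
  have hτ2 : τ ≤ 1 := by
    rw [hτ, div_le_one hden]
    have h1 : (1 : ℝ) ≤ m := by linarith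
    have h2 : (1 : ℝ) ≤ (1 + K1) * (1 + s) := by
      have : (0 : ℝ) ≤ K1 := by positivity
      nlinarith [mul_nonneg this hs0]
    nlinarith
  -- the cut `K`
  obtain ⟨K0, hK0⟩ := hP h hBh (1 / m) (by positivity)
  have hpois := (Metric.tendsto_atTop.1 (poisson hΦ hBh.le)) (1 / m) (by positivity)
  obtain ⟨K0', hK0'⟩ := hpois
  obtain ⟨K, hKdef⟩ : ∃ K : ℕ, K = max K1 (max K0 K0') := ⟨_, rfl⟩
  have hK_1 : K1 ≤ K := by rw [hKdef]; exact le_max_left _ _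
  have hK_2 : K0 ≤ K := by rw [hKdef]; exact (le_max_left _ _).trans (le_max_right _ _)
  have hK_3 : K0' ≤ K := by rw [hKdef]; exact (le_max_right _ _).trans (le_max_right _ _)
  -- the events
  have ev1 : ∀ᶠ N : ℕ in atTop, ∀ k ∈ Finset.Icc 1 (K1 + 1),
      |(1 / N : ℝ) * ∑ n ∈ Finset.Icc 1 N, (∑ i ∈ Finset.range k, a (n + i)) ^ 2 -
      (k * cov a 0 N + 2 * ∑ j ∈ Finset.Ico 1 k, ((k : ℝ) - j) * cov a j N)| ≤ τ :=
    (Filter.eventually_all_finset _).2 fun k _ => sum_rule hg k τ hτ0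
  have ev2 : ∀ᶠ N : ℕ in atTop, ∀ k ∈ Finset.Icc 1 K1, |Av (fun n => dd a k n) N| ≤ τ :=
    (Filter.eventually_all_finset _).2 fun k _ => hm k τ hτ0
  have ev3 : ∀ᶠ N : ℕ in atTop, ∀ k ∈ Finset.Icc 1 K1,
      Av (fun n => |dd a k n| ^ 3) N ≤ C3 * (1 + Real.log k) ^ 3 :=
    (Filter.eventually_all_finset _).2 fun k hk => hC3 k (Finset.mem_Icc.1 hk).1
  have ev4 : ∀ᶠ N : ℕ in atTop, ∀ k ∈ Finset.Icc 1 (K1 + 1),
      Av (fun n => |dd a k n| ^ 2) N ≤ C2 * (1 + Real.log k) ^ 2 :=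
    (Filter.eventually_all_finset _).2 fun k hk => hC2 k (Finset.mem_Icc.1 hk).1
  have ev5 : ∀ᶠ N : ℕ in atTop, ∀ k ∈ Finset.Ioc K1 K,
      Av (fun n => |dd a k n| ^ 6) N ≤ C6 * (1 + Real.log k) ^ 6 :=
    (Filter.eventually_all_finset _).2 fun k hk => hC6 k (by
      have := (Finset.mem_Ioc.1 hk).1; omega)
  filter_upwards [ev1, ev2, ev3, ev4, ev5, hK0 K hK_2, eventually_ge_atTop 1]
    with N e1 e2 e3 e4 e5 e6 hN
  have hgK : |gs h Φ 0 + 2 * ∑ k ∈ Finset.Icc 1 K, gs h Φ k - h ^ 2 * Φ 0| ≤ 1 / (m : ℝ) := by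
    have := hK0' K hK_3
    rw [Real.dist_eq] at this
    exact this.le
  have hDh := hD h hhpos
  -- powers of `m`
  have hp7 : h ^ 7 ≤ (m : ℝ) ^ 14 := by
    calc h ^ 7 ≤ ((m : ℝ) ^ 2) ^ 7 := pow_le_pow_left₀ hhpos.le hh2 7
      _ = (m : ℝ) ^ 14 := by ring
  have hp2 : 1 / h ^ 2 ≤ 16 / (m : ℝ) ^ 4 := by
    rw [div_le_div_iff₀ (by positivity) (by positivity)]
    have : ((m : ℝ) ^ 2 / 4) ^ 2 ≤ h ^ 2 := pow_le_pow_left₀ (by positivity) hh1 2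
    have e : ((m : ℝ) ^ 2 / 4) ^ 2 = (m : ℝ) ^ 4 / 16 := by ring
    rw [e] at this
    linarith
  have hp3 : 1 / h ^ 3 ≤ 64 / (m : ℝ) ^ 6 := by
    rw [div_le_div_iff₀ (by positivity) (by positivity)]
    have : ((m : ℝ) ^ 2 / 4) ^ 3 ≤ h ^ 3 := pow_le_pow_left₀ (by positivity) hh1 3
    have e : ((m : ℝ) ^ 2 / 4) ^ 3 = (m : ℝ) ^ 6 / 64 := by ring
    rw [e] at this
    linarith
  -- tails
  have hgt : ∑ k ∈ Finset.Ioc K1 K, |gs h Φ k| ≤ 64 * D * (1 + 729 * C6) / m := by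
    refine (gs_tail (fun x => (hDh x).2) K1 K hK11).trans ?_
    rw [hK1r]
    have : D * h ^ 7 / ((m : ℝ) ^ 3) ^ 5 ≤ D * (m : ℝ) ^ 14 / ((m : ℝ) ^ 3) ^ 5 := by gcongr
    refine this.trans ?_
    have e : D * (m : ℝ) ^ 14 / ((m : ℝ) ^ 3) ^ 5 = D / m := by field_simp
    rw [e]
    gcongr
    nlinarith [mul_nonneg hD0.le hC60]
  have hGt : ∑ k ∈ Finset.Ioc K1 K, |Av (fun n => gs h Φ (k + dd a k n)) N| ≤
      64 * D * (1 + 729 * C6) / m := by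
    have h1 : ∀ k ∈ Finset.Ioc K1 K, |Av (fun n => gs h Φ (k + dd a k n)) N| ≤
        64 * D * h ^ 7 * (1 / (k : ℝ) ^ 6) + 64 * D * h * C6 * 729 * (1 / (k : ℝ) ^ 4) := by
      intro k hk
      have hk1 : 1 ≤ k := by have := (Finset.mem_Ioc.1 hk).1; omega
      have hk0 : (0 : ℝ) < k := by exact_mod_cast hk1
      refine (Av_abs _ _).trans ((Av_mono N fun n _ _ =>
        gs_big hhpos hD0 hDh hk1 (dd a k n)).trans ?_)
      have e7 : ∀ n, 64 * D * (h ^ 7 + h * |dd a k n| ^ 6) / (k : ℝ) ^ 6 =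
          64 * D * h ^ 7 * (1 / (k : ℝ) ^ 6) +
            (64 * D * h * (1 / (k : ℝ) ^ 6)) * |dd a k n| ^ 6 := by
        intro n
        field_simp
      simp_rw [e7]
      rw [Av_add, Av_const hN, Av_mul]
      have h2 := (e5 k hk).trans (mul_le_mul_of_nonneg_left (log6 hk1) hC60)
      have h3 : 64 * D * h * (1 / (k : ℝ) ^ 6) * Av (fun n => |dd a k n| ^ 6) N ≤
          64 * D * h * (1 / (k : ℝ) ^ 6) * (C6 * (729 * (k : ℝ) ^ 2)) :=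
        mul_le_mul_of_nonneg_left h2 (by positivity)
      have h4 : 64 * D * h * (1 / (k : ℝ) ^ 6) * (C6 * (729 * (k : ℝ) ^ 2)) =
          64 * D * h * C6 * 729 * (1 / (k : ℝ) ^ 4) := by
        field_simp
      linarith
    refine (Finset.sum_le_sum h1).trans ?_
    rw [Finset.sum_add_distrib, ← Finset.mul_sum, ← Finset.mul_sum]
    have h2 := mul_le_mul_of_nonneg_left (sum_inv6 K1 K hK11)
      (show 0 ≤ 64 * D * h ^ 7 by positivity)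
    have h3 := mul_le_mul_of_nonneg_left (sum_inv4 K1 K hK11)
      (show 0 ≤ 64 * D * h * C6 * 729 by positivity)
    rw [hK1r] at h2 h3
    have h4 : 64 * D * h ^ 7 * (1 / ((m : ℝ) ^ 3) ^ 5) ≤ 64 * D / m := by
      have : 64 * D * h ^ 7 * (1 / ((m : ℝ) ^ 3) ^ 5) ≤
          64 * D * (m : ℝ) ^ 14 * (1 / ((m : ℝ) ^ 3) ^ 5) := by gcongr
      refine this.trans (le_of_eq ?_)
      field_simp
    have h5 : 64 * D * h * C6 * 729 * (1 / ((m : ℝ) ^ 3) ^ 3) ≤ 64 * D * (729 * C6) / m := by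
      have g1 : 64 * D * h * C6 * 729 * (1 / ((m : ℝ) ^ 3) ^ 3) ≤
          64 * D * (m : ℝ) ^ 2 * C6 * 729 * (1 / ((m : ℝ) ^ 3) ^ 3) := by gcongr
      have g2 : 64 * D * (m : ℝ) ^ 2 * C6 * 729 * (1 / ((m : ℝ) ^ 3) ^ 3) =
          64 * D * (729 * C6) / (m : ℝ) ^ 7 := by
        field_simp
      have g3 : 64 * D * (729 * C6) / (m : ℝ) ^ 7 ≤ 64 * D * (729 * C6) / m := by
        apply div_le_div_of_nonneg_left (by positivity) hm0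
        calc (m : ℝ) = (m : ℝ) ^ 1 := (pow_one _).symm
          _ ≤ (m : ℝ) ^ 7 := pow_le_pow_right₀ (by linarith) (by norm_num)
      linarith
    have e : 64 * D * (1 + 729 * C6) / m = 64 * D / m + 64 * D * (729 * C6) / m := by ring
    rw [e]
    linarith
  -- apply the deterministic inequality
  have key := det (fun k => cov a k N) (fun k => gs h Φ k)
    (fun k => Av (fun n => gs h Φ (k + dd a k n)) N) (fun k => Av (fun n => |dd a k n| ^ 2) N)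
    (fun k => Av (fun n => dd a k n) N) (fun k => Av (fun n => |dd a k n| ^ 3) N)
    (fun k => d1 Φ (k / h)) (fun k => d2 Φ (k / h) / h) K1 K hK_1 (J Φ) (h ^ 2 * Φ 0)
    τ τ (1 / m) (1 / m) s (m3 Φ / h ^ 2) (m4 Φ / h ^ 3) (C3 * l ^ 3) (C2 * l ^ 2)
    (64 * D * (1 + 729 * C6) / m)
    (by
      intro k h1 h2
      have := e1 k (Finset.mem_Icc.2 ⟨h1, h2⟩)
      simp only [sq_abs]
      exact this)
    (fun k h1 h2 => e2 k (Finset.mem_Icc.2 ⟨h1, h2⟩))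
    (by
      rw [Av_add, Av_const hN, Av_mul, Av_sum] at e6
      simpa using e6)
    (by simpa using hgK)
    (by
      intro k h1 h2
      have e : Av (fun n => gs h Φ (k + dd a k n)) N - gs h Φ k -
          d1 Φ (k / h) * Av (fun n => dd a k n) N -
          d2 Φ (k / h) / h / 2 * Av (fun n => |dd a k n| ^ 2) N =
          Av (fun n => gs h Φ (k + dd a k n) - gs h Φ k - d1 Φ (k / h) * dd a k n -
            d2 Φ (k / h) / h / 2 * |dd a k n| ^ 2) N := by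
        rw [Av_sub, Av_sub, Av_sub, Av_const hN, Av_mul, Av_mul]
      rw [e]
      refine (Av_abs _ _).trans ?_
      rw [← Av_mul]
      refine Av_mono N fun n _ _ => ?_
      rw [sq_abs]
      exact gs_t3 hΦ hhpos k (dd a k n))
    (fun k => gs_t4 hΦ hhpos k)
    (by
      intro k h1 h2
      refine (e3 k (Finset.mem_Icc.2 ⟨h1, h2⟩)).trans ?_
      exact mul_le_mul_of_nonneg_left (pow_le_pow_left₀ (hlk k h1 (by omega)).1
        (hlk k h1 (by omega)).2 3) hC30)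
    (by positivity) (by positivity)
    (by
      intro k h1 h2
      rw [abs_of_nonneg]
      · refine (e4 k (Finset.mem_Icc.2 ⟨h1, h2⟩)).trans ?_
        exact mul_le_mul_of_nonneg_left (pow_le_pow_left₀ (hlk k h1 h2).1
          (hlk k h1 h2).2 2) hC20
      · unfold Av
        exact mul_nonneg (by positivity) (Finset.sum_nonneg fun n _ => by positivity))
    (fun k => (d1_le hΦ _).trans (by rw [hs]; linarith))
    (by
      intro k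
      rw [abs_div, abs_of_pos hhpos]
      have := d2_le hΦ (k / h)
      rw [hs]
      have g1 : |d2 Φ (k / h)| / h ≤ |d2 Φ (k / h)| := div_le_self (abs_nonneg _) hh1'
      linarith)
    hGt hgt hK11
  simp only [Nat.cast_zero] at key
  refine key.trans ?_
  -- the sizes
  have hl2 : l ^ 2 ≤ l ^ 3 := pow_le_pow_right₀ hl1 (by norm_num)
  have hl3 : 1 ≤ l ^ 3 := one_le_pow₀ hl1
  have hYt : C2 * l ^ 2 + τ ≤ (C2 + 1) * l ^ 3 := by nlinarith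
  have hYt0 : 0 ≤ C2 * l ^ 2 + τ := by positivity
  have hgk : ∀ k : ℕ, K1 ≤ k → |gs h Φ k| ≤ D / m := by
    intro k hk
    have h1 := (hDh k).2
    have hkr : (m : ℝ) ^ 3 ≤ k := by rw [← hK1r]; exact_mod_cast hk
    have hk0 : (0 : ℝ) < k := by
      have : (0 : ℝ) < (m : ℝ) ^ 3 := by positivity
      linarith
    rw [abs_of_pos hk0] at h1
    have h2 : ((m : ℝ) ^ 3) ^ 6 ≤ (k : ℝ) ^ 6 := pow_le_pow_left₀ (by positivity) hkr 6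
    have h3 : ((m : ℝ) ^ 3) ^ 6 * |gs h Φ k| ≤ D * (m : ℝ) ^ 14 :=
      (mul_le_mul_of_nonneg_right h2 (abs_nonneg _)).trans (h1.trans (by gcongr))
    rw [le_div_iff₀ hm0]
    have h4 : ((m : ℝ) ^ 3) ^ 6 = (m : ℝ) ^ 14 * ((m : ℝ) ^ 4) := by ring
    rw [h4] at h3
    have h5 : (m : ℝ) ^ 4 * |gs h Φ k| ≤ D := by
      have : (m : ℝ) ^ 14 * ((m : ℝ) ^ 4 * |gs h Φ k|) ≤ (m : ℝ) ^ 14 * D := by linarith
      exact le_of_mul_le_mul_left this (by positivity)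
    have h6 : (m : ℝ) ≤ (m : ℝ) ^ 4 := by
      calc (m : ℝ) = (m : ℝ) ^ 1 := (pow_one _).symm
        _ ≤ (m : ℝ) ^ 4 := pow_le_pow_right₀ (by linarith) (by norm_num)
    nlinarith [abs_nonneg (gs h Φ k)]
  have a1 : (C2 * l ^ 2 + τ) * (|gs h Φ K1| + |gs h Φ ((K1 + 1 : ℕ) : ℝ)|) ≤
      2 * D * (C2 + 1) * (l ^ 3 / m) := by
    have g1 := hgk K1 le_rfl
    have g2 := hgk (K1 + 1) (by omega)
    calc (C2 * l ^ 2 + τ) * (|gs h Φ K1| + |gs h Φ ((K1 + 1 : ℕ) : ℝ)|) ≤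
        ((C2 + 1) * l ^ 3) * (D / m + D / m) :=
          mul_le_mul hYt (add_le_add g1 g2) (by positivity) (by positivity)
      _ = 2 * D * (C2 + 1) * (l ^ 3 / m) := by ring
  have hq : ∀ p : ℕ, 1 ≤ p → (m : ℝ) ^ 3 / (m : ℝ) ^ (3 + p) ≤ 1 / m := by
    intro p hp
    have : (m : ℝ) ^ 3 / (m : ℝ) ^ (3 + p) = 1 / (m : ℝ) ^ p := by
      rw [pow_add]; field_simp
    rw [this]
    apply one_div_le_one_div_of_le hm0
    calc (m : ℝ) = (m : ℝ) ^ 1 := (pow_one _).symm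
      _ ≤ (m : ℝ) ^ p := pow_le_pow_right₀ (by linarith) hp
  have a2 : (K1 : ℝ) * (m4 Φ / h ^ 3 * (C2 * l ^ 2 + τ)) ≤
      64 * m4 Φ * (C2 + 1) * (l ^ 3 / m) := by
    have g1 : (m : ℝ) ^ 3 * (1 / h ^ 3) ≤ 64 * (1 / m) := by
      calc (m : ℝ) ^ 3 * (1 / h ^ 3) ≤ (m : ℝ) ^ 3 * (64 / (m : ℝ) ^ 6) := by gcongr
        _ = 64 * ((m : ℝ) ^ 3 / (m : ℝ) ^ (3 + 3)) := by ring
        _ ≤ 64 * (1 / m) := by
            have := hq 3 (by norm_num)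
            linarith
    rw [hK1r]
    calc (m : ℝ) ^ 3 * (m4 Φ / h ^ 3 * (C2 * l ^ 2 + τ)) =
        m4 Φ * ((m : ℝ) ^ 3 * (1 / h ^ 3)) * (C2 * l ^ 2 + τ) := by ring
      _ ≤ m4 Φ * (64 * (1 / m)) * ((C2 + 1) * l ^ 3) := by gcongr
      _ = 64 * m4 Φ * (C2 + 1) * (l ^ 3 / m) := by ring
  have a3 : 2 * ((K1 : ℝ) * (m3 Φ / h ^ 2 * (C3 * l ^ 3))) ≤ 32 * m3 Φ * C3 * (l ^ 3 / m) := by
    have g1 : (m : ℝ) ^ 3 * (1 / h ^ 2) ≤ 16 * (1 / m) := by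
      calc (m : ℝ) ^ 3 * (1 / h ^ 2) ≤ (m : ℝ) ^ 3 * (16 / (m : ℝ) ^ 4) := by gcongr
        _ = 16 * ((m : ℝ) ^ 3 / (m : ℝ) ^ (3 + 1)) := by ring
        _ ≤ 16 * (1 / m) := by
            have := hq 1 le_rfl
            linarith
    rw [hK1r]
    calc 2 * ((m : ℝ) ^ 3 * (m3 Φ / h ^ 2 * (C3 * l ^ 3))) =
        2 * (m3 Φ * C3) * ((m : ℝ) ^ 3 * (1 / h ^ 2)) * l ^ 3 := by ring
      _ ≤ 2 * (m3 Φ * C3) * (16 * (1 / m)) * l ^ 3 := by gcongr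
      _ = 32 * m3 Φ * C3 * (l ^ 3 / m) := by ring
  have a4 : 1 / (m : ℝ) ≤ l ^ 3 / m := by gcongr
  have a5 : 4 * (64 * D * (1 + 729 * C6) / m) ≤ 4 * (64 * D * (1 + 729 * C6)) * (l ^ 3 / m) := by
    calc 4 * (64 * D * (1 + 729 * C6) / m) = 4 * (64 * D * (1 + 729 * C6)) * (1 / m) := by ring
      _ ≤ 4 * (64 * D * (1 + 729 * C6)) * (l ^ 3 / m) := by gcongr
  have e : (2 * D * (C2 + 1) + 64 * m4 Φ * (C2 + 1) + 32 * m3 Φ * C3 + 5 +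
      4 * (64 * D * (1 + 729 * C6))) * l ^ 3 / m = 2 * D * (C2 + 1) * (l ^ 3 / m) +
      64 * m4 Φ * (C2 + 1) * (l ^ 3 / m) + 32 * m3 Φ * C3 * (l ^ 3 / m) + 5 * (l ^ 3 / m) +
      4 * (64 * D * (1 + 729 * C6)) * (l ^ 3 / m) := by ring
  rw [e]
  linarith

end Pool.Agent.K6.H57.PN
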