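import Pool.Agent.K6.H57.PN.Fn2
import Pool.Agent.R846.NC.Abs

/-! # From pair sums to covariances: the deterministic part -/

set_option autoImplicit false

open MeasureTheory Set Filter Topology

namespace Pool.Agent.K6.H57.PN

/-- sums of consecutive terms -/
def dd (a : ℕ → ℝ) (k n : ℕ) : ℝ := ∑ i ∈ Finset.range k, a (n + i)

/-- averages -/
noncomputable def Av (f : ℕ → ℝ) (N : ℕ) : ℝ := (1 / N : ℝ) * ∑ n ∈ Finset.Icc 1 N, f n

lemma Av_add (f g : ℕ → ℝ) (N : ℕ) : Av (fun n => f n + g n) N = Av f N + Av g N := by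
  unfold Av; rw [Finset.sum_add_distrib, mul_add]

lemma Av_sub (f g : ℕ → ℝ) (N : ℕ) : Av (fun n => f n - g n) N = Av f N - Av g N := by
  unfold Av; rw [Finset.sum_sub_distrib, mul_sub]

lemma Av_mul (c : ℝ) (f : ℕ → ℝ) (N : ℕ) : Av (fun n => c * f n) N = c * Av f N := by
  unfold Av; rw [← Finset.mul_sum]; ring

lemma Av_const {N : ℕ} (hN : 1 ≤ N) (c : ℝ) : Av (fun _ => c) N = c := by
  unfold Av
  have : (N : ℝ) ≠ 0 := by
    have : 0 < N := hN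
    positivity
  rw [Finset.sum_const, Nat.card_Icc, nsmul_eq_mul, Nat.add_sub_cancel]
  field_simp

lemma Av_mono {f g : ℕ → ℝ} (N : ℕ) (h : ∀ n, 1 ≤ n → n ≤ N → f n ≤ g n) : Av f N ≤ Av g N := by
  unfold Av
  refine mul_le_mul_of_nonneg_left (Finset.sum_le_sum fun n hn => ?_) (by positivity)
  rw [Finset.mem_Icc] at hn
  exact h n hn.1 hn.2

lemma Av_abs (f : ℕ → ℝ) (N : ℕ) : |Av f N| ≤ Av (fun n => |f n|) N := by
  unfold Av
  rw [abs_mul, abs_of_nonneg (by positivity : (0 : ℝ) ≤ 1 / N)]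
  exact mul_le_mul_of_nonneg_left (Finset.abs_sum_le_sum_abs _ _) (by positivity)

lemma Av_sum {ι : Type*} (s : Finset ι) (f : ι → ℕ → ℝ) (N : ℕ) :
    Av (fun n => ∑ i ∈ s, f i n) N = ∑ i ∈ s, Av (f i) N := by
  unfold Av
  rw [Finset.sum_comm, Finset.mul_sum]

/-- the formal variance of the sum of `m` terms -/
noncomputable def vv (c : ℕ → ℝ) (m : ℕ) : ℝ :=
  m * c 0 + 2 * ∑ k ∈ Finset.Ico 1 m, ((m : ℝ) - k) * c k

lemma vv_zero (c : ℕ → ℝ) : vv c 0 = 0 := by unfold vv; simp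

lemma vv_one (c : ℕ → ℝ) : vv c 1 = c 0 := by unfold vv; simp

lemma vv_succ (c : ℕ → ℝ) (m : ℕ) :
    vv c (m + 1) = vv c m + (c 0 + 2 * ∑ k ∈ Finset.Ico 1 (m + 1), c k) := by
  unfold vv
  have h2 : ∑ k ∈ Finset.Ico 1 (m + 1), (((m + 1 : ℕ) : ℝ) - k) * c k =
      ∑ k ∈ Finset.Ico 1 m, ((m : ℝ) - k) * c k + ∑ k ∈ Finset.Ico 1 (m + 1), c k := by
    have e1 : ∑ k ∈ Finset.Ico 1 (m + 1), (((m + 1 : ℕ) : ℝ) - k) * c k =
        ∑ k ∈ Finset.Ico 1 (m + 1), ((m : ℝ) - k) * c k + ∑ k ∈ Finset.Ico 1 (m + 1), c k := by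
      rw [← Finset.sum_add_distrib]
      refine Finset.sum_congr rfl fun k _ => ?_
      push_cast
      ring
    rw [e1]
    congr 1
    rcases Nat.eq_zero_or_pos m with h | h
    · subst h; simp
    rw [Finset.sum_Ico_succ_top h]
    simp
  rw [h2]
  push_cast
  ring

lemma vv_diff (c : ℕ → ℝ) (m : ℕ) : vv c (m + 2) - 2 * vv c (m + 1) + vv c m = 2 * c (m + 1) := by
  have h1 := vv_succ c (m + 1)
  have h2 := vv_succ c m
  rw [Finset.sum_Ico_succ_top (by omega : 1 ≤ m + 1)] at h1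
  linarith

/-- double summation by parts -/
lemma abel (c g : ℕ → ℝ) (K : ℕ) :
    ∑ k ∈ Finset.range K, (g (k + 2) - 2 * g (k + 1) + g k) * vv c (k + 1) =
      c 0 * g 0 + 2 * ∑ k ∈ Finset.Icc 1 K, c k * g k - vv c (K + 1) * g K + vv c K * g (K + 1) := by
  induction K with
  | zero => simp [vv_zero, vv_one]
  | succ K ih =>
    rw [Finset.sum_range_succ, ih, Finset.sum_Icc_succ_top (by omega)]
    have h := vv_diff c K
    have : vv c (K + 1 + 1) = 2 * c (K + 1) + 2 * vv c (K + 1) - vv c K := by linarith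
    rw [this]
    ring

lemma abs_sum_le' {ι : Type*} (s : Finset ι) (f g : ι → ℝ) (h : ∀ i ∈ s, |f i| ≤ g i) :
    |∑ i ∈ s, f i| ≤ ∑ i ∈ s, g i :=
  (Finset.abs_sum_le_sum_abs _ _).trans (Finset.sum_le_sum h)

/-- **the deterministic inequality** -/
theorem det (c g G V A1 A3 gd1 gd2 : ℕ → ℝ) (K1 K : ℕ) (hK : K1 ≤ K)
    (J P t1 t2 t3 t4 s e3 e4 X Y W : ℝ)
    (hV : ∀ k, 1 ≤ k → k ≤ K1 + 1 → |V k - vv c k| ≤ t1)
    (hA : ∀ k, 1 ≤ k → k ≤ K1 → |A1 k| ≤ t2)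
    (hG : |g 0 + 2 * ∑ k ∈ Finset.Icc 1 K, G k - (P + J)| ≤ t3)
    (hg : |g 0 + 2 * ∑ k ∈ Finset.Icc 1 K, g k - P| ≤ t4)
    (hT3 : ∀ k, 1 ≤ k → k ≤ K1 → |G k - g k - gd1 k * A1 k - gd2 k / 2 * V k| ≤ e3 * A3 k)
    (hT4 : ∀ k, |g (k + 2) - 2 * g (k + 1) + g k - gd2 (k + 1)| ≤ e4)
    (hA3 : ∀ k, 1 ≤ k → k ≤ K1 → A3 k ≤ X) (he3 : 0 ≤ e3) (he4 : 0 ≤ e4)
    (hVX : ∀ k, 1 ≤ k → k ≤ K1 + 1 → |V k| ≤ Y)
    (hd1 : ∀ k, |gd1 k| ≤ s) (hd2 : ∀ k, |gd2 k| ≤ s)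
    (hGt : ∑ k ∈ Finset.Ioc K1 K, |G k| ≤ W) (hgt : ∑ k ∈ Finset.Ioc K1 K, |g k| ≤ W)
    (hK1 : 1 ≤ K1) :
    |c 0 * g 0 + 2 * ∑ k ∈ Finset.Icc 1 K1, c k * g k - J| ≤
      (Y + t1) * (|g K1| + |g (K1 + 1)|) + K1 * (e4 * (Y + t1)) + K1 * (s * t1) +
      2 * (K1 * (s * t2)) + 2 * (K1 * (e3 * X)) + t3 + t4 + 4 * W := by
  have hY : 0 ≤ Y := (abs_nonneg _).trans (hVX 1 le_rfl (by omega))
  have hs : 0 ≤ s := (abs_nonneg _).trans (hd1 0)
  have hvv : ∀ k, 1 ≤ k → k ≤ K1 + 1 → |vv c k| ≤ Y + t1 := by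
    intro k h1 h2
    have g1 := hV k h1 h2
    have g2 := hVX k h1 h2
    rw [abs_le] at *
    constructor <;> linarith
  -- (A)
  have hA' := abel c g K1
  -- (B)
  have hB : |∑ k ∈ Finset.range K1, (g (k + 2) - 2 * g (k + 1) + g k) * vv c (k + 1) -
      ∑ k ∈ Finset.Icc 1 K1, gd2 k * V k| ≤ K1 * (e4 * (Y + t1)) + K1 * (s * t1) := by
    rw [← sum_range_Icc (fun k => gd2 k * V k) K1, ← Finset.sum_sub_distrib]
    have e : ∀ k ∈ Finset.range K1, |(g (k + 2) - 2 * g (k + 1) + g k) * vv c (k + 1) -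
        gd2 (k + 1) * V (k + 1)| ≤ e4 * (Y + t1) + s * t1 := by
      intro k hk
      rw [Finset.mem_range] at hk
      have h1 := hT4 k
      have h2 := hvv (k + 1) (by omega) (by omega)
      have h3 := hV (k + 1) (by omega) (by omega)
      have h4 := hd2 (k + 1)
      have e : (g (k + 2) - 2 * g (k + 1) + g k) * vv c (k + 1) - gd2 (k + 1) * V (k + 1) =
          (g (k + 2) - 2 * g (k + 1) + g k - gd2 (k + 1)) * vv c (k + 1) -
          gd2 (k + 1) * (V (k + 1) - vv c (k + 1)) := by ring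
      rw [e]
      refine (abs_sub _ _).trans ?_
      rw [abs_mul, abs_mul]
      exact add_le_add (mul_le_mul h1 h2 (abs_nonneg _) he4) (mul_le_mul h4 h3 (abs_nonneg _) hs)
    refine (abs_sum_le' _ _ _ e).trans (le_of_eq ?_)
    rw [Finset.sum_const, Finset.card_range, nsmul_eq_mul]
    ring
  -- (C)
  have hC : |∑ k ∈ Finset.Icc 1 K1, gd2 k * V k - 2 * ∑ k ∈ Finset.Icc 1 K1, (G k - g k)| ≤
      2 * (K1 * (s * t2)) + 2 * (K1 * (e3 * X)) := by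
    rw [Finset.mul_sum, ← Finset.sum_sub_distrib]
    have e : ∀ k ∈ Finset.Icc 1 K1, |gd2 k * V k - 2 * (G k - g k)| ≤
        2 * (s * t2) + 2 * (e3 * X) := by
      intro k hk
      rw [Finset.mem_Icc] at hk
      have h1 := hT3 k hk.1 hk.2
      have h2 := hA k hk.1 hk.2
      have h3 := hA3 k hk.1 hk.2
      have e : gd2 k * V k - 2 * (G k - g k) =
          -(2 * (gd1 k * A1 k)) - 2 * (G k - g k - gd1 k * A1 k - gd2 k / 2 * V k) := by ring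
      rw [e]
      refine (abs_sub _ _).trans ?_
      rw [abs_neg, abs_mul, abs_mul, abs_mul, abs_of_pos (by norm_num : (0 : ℝ) < 2)]
      have h4 : |gd1 k| * |A1 k| ≤ s * t2 := mul_le_mul (hd1 k) h2 (abs_nonneg _) hs
      have h5 : e3 * A3 k ≤ e3 * X := mul_le_mul_of_nonneg_left h3 he3
      linarith
    refine (abs_sum_le' _ _ _ e).trans (le_of_eq ?_)
    rw [Finset.sum_const, Nat.card_Icc, nsmul_eq_mul, Nat.add_sub_cancel]
    ring
  -- (D)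
  have hsplit : ∀ f : ℕ → ℝ, ∑ k ∈ Finset.Icc 1 K, f k =
      ∑ k ∈ Finset.Icc 1 K1, f k + ∑ k ∈ Finset.Ioc K1 K, f k := by
    intro f
    have e1 : Finset.Icc 1 K = Finset.Ioc 0 K := by ext x; simp; omega
    have e2 : Finset.Icc 1 K1 = Finset.Ioc 0 K1 := by ext x; simp; omega
    rw [e1, e2]
    exact (Finset.sum_Ioc_consecutive f (Nat.zero_le _) hK).symm
  have hD : |2 * ∑ k ∈ Finset.Icc 1 K1, (G k - g k) - J| ≤ t3 + t4 + 4 * W := by
    rw [Finset.sum_sub_distrib]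
    rw [hsplit] at hG hg
    have h1 := (Finset.abs_sum_le_sum_abs G (Finset.Ioc K1 K)).trans hGt
    have h2 := (Finset.abs_sum_le_sum_abs g (Finset.Ioc K1 K)).trans hgt
    rw [abs_le] at *
    constructor <;> linarith
  -- boundary terms
  have hE : |vv c (K1 + 1) * g K1 - vv c K1 * g (K1 + 1)| ≤ (Y + t1) * (|g K1| + |g (K1 + 1)|) := by
    refine (abs_sub _ _).trans ?_
    rw [abs_mul, abs_mul, mul_add]
    exact add_le_add (mul_le_mul_of_nonneg_right (hvv _ (by omega) le_rfl) (abs_nonneg _))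
      (mul_le_mul_of_nonneg_right (hvv _ hK1 (by omega)) (abs_nonneg _))
  rw [abs_le] at hB hC hD hE ⊢
  constructor <;> linarith [hB.1, hB.2, hC.1, hC.2, hD.1, hD.2, hE.1, hE.2]

end Pool.Agent.K6.H57.PN
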