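import Pool.Agent.K6.H57.PN.Adm

/-! # Test functions: decay, Taylor expansion, Poisson summation -/

set_option autoImplicit false

open MeasureTheory Set Filter Topology
open scoped FourierTransform ContDiff

namespace Pool.Agent.K6.H57.PN

open Pool.Agent.Y749.Rig (FL fl Adm FL_real fl_cont fl_even four_eq)

/-- test functions -/
structure Tf (B : ℝ) (Φ : ℝ → ℝ) : Prop where
  pos : 0 < B
  sm : ContDiff ℝ ∞ Φ
  even : ∀ x, Φ (-x) = Φ x
  supp : ∀ x, B ≤ |x| → Φ x = 0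

lemma Tf.hcs {B : ℝ} {Φ : ℝ → ℝ} (h : Tf B Φ) : HasCompactSupport Φ := by
  refine HasCompactSupport.of_support_subset_isCompact (isCompact_Icc (a := -B) (b := B)) ?_
  intro x hx
  by_contra hcon
  apply hx
  apply h.supp
  by_contra h2
  push Not at h2
  exact hcon ⟨(abs_lt.1 h2).1.le, (abs_lt.1 h2).2.le⟩

lemma Tf.cont {B : ℝ} {Φ : ℝ → ℝ} (h : Tf B Φ) : Continuous Φ := h.sm.continuous

lemma Tf.int {B : ℝ} {Φ : ℝ → ℝ} (h : Tf B Φ) : Integrable Φ :=
  h.cont.integrable_of_hasCompactSupport h.hcs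

lemma FL_iter {f : ℝ → ℝ} (hf : ContDiff ℝ ∞ f) (hs : HasCompactSupport f) (n : ℕ) :
    ∃ g : ℝ → ℝ, Continuous g ∧ HasCompactSupport g ∧
      ∀ z : ℂ, (2 * Real.pi * Complex.I * z) ^ n * FL f z = (-1) ^ n * FL g z := by
  induction n generalizing f with
  | zero => exact ⟨f, hf.continuous, hs, fun z => by simp⟩
  | succ n ih =>
    have h1 := contDiff_infty_iff_deriv.mp hf
    obtain ⟨g, hg1, hg2, hg3⟩ := ih h1.2 hs.deriv
    refine ⟨g, hg1, hg2, fun z => ?_⟩
    have h2 := FL_parts (fun x => (h1.1 x).hasDerivAt) h1.2.continuous hs z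
    rw [pow_succ, mul_assoc, h2, mul_neg, hg3 z, pow_succ]
    ring

lemma fl_decay {B : ℝ} {Φ : ℝ → ℝ} (h : Tf B Φ) (n : ℕ) :
    ∃ C : ℝ, 0 ≤ C ∧ ∀ x : ℝ, |x| ^ n * |fl Φ x| ≤ C := by
  obtain ⟨g, hg1, hg2, hg3⟩ := FL_iter h.sm h.hcs n
  refine ⟨∫ x, |g x|, integral_nonneg fun x => abs_nonneg _, fun x => ?_⟩
  have h1 := hg3 (x : ℂ)
  rw [FL_real h.int h.even] at h1
  have h2 : ‖(2 * Real.pi * Complex.I * (x : ℂ)) ^ n * ((fl Φ x : ℝ) : ℂ)‖ = ‖FL g (x : ℂ)‖ := by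
    rw [h1, norm_mul, norm_pow, norm_neg, norm_one, one_pow, one_mul]
  have h3 : ‖FL g (x : ℂ)‖ ≤ ∫ x, |g x| := by
    unfold Pool.Agent.Y749.Rig.FL
    refine (norm_integral_le_integral_norm _).trans (le_of_eq ?_)
    refine integral_congr_ae (ae_of_all _ fun α => ?_)
    simp only [norm_mul, Complex.norm_real, Real.norm_eq_abs]
    have := ex_norm (x : ℂ) α
    unfold ex at this
    rw [this]
    simp
  have h4 : |x| ^ n * |fl Φ x| ≤ ‖(2 * Real.pi * Complex.I * (x : ℂ)) ^ n * ((fl Φ x : ℝ) : ℂ)‖ := by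
    rw [norm_mul, norm_pow, norm_mul, norm_mul, norm_mul]
    simp only [Complex.norm_ofNat, Complex.norm_real, Complex.norm_I, mul_one, Real.norm_eq_abs,
      abs_of_pos Real.pi_pos]
    refine mul_le_mul_of_nonneg_right (pow_le_pow_left₀ (abs_nonneg _) ?_ n) (abs_nonneg _)
    have := Real.pi_gt_three
    nlinarith [abs_nonneg x]
  linarith [h2.symm ▸ h4]

/-! ### Taylor -/

lemma sub_sin_le {x : ℝ} (hx : 0 ≤ x) : 0 ≤ x - Real.sin x ∧ x - Real.sin x ≤ 2 * x ^ 3 := by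
  refine ⟨sub_nonneg.2 (Real.sin_le hx), ?_⟩
  rcases hx.eq_or_lt with h0 | h0
  · rw [← h0]; simp
  · have := Real.sin_gt_sub_cube h0
    nlinarith [pow_pos h0 3]

lemma cos_q (b : ℝ) : 0 ≤ Real.cos b - 1 + b ^ 2 / 2 ∧ Real.cos b - 1 + b ^ 2 / 2 ≤ b ^ 4 / 2 := by
  have key : ∀ b : ℝ, 0 ≤ b → 0 ≤ Real.cos b - 1 + b ^ 2 / 2 ∧
      Real.cos b - 1 + b ^ 2 / 2 ≤ b ^ 4 / 2 := by
    intro b hb
    have h1 := sub_sin_le (show 0 ≤ b / 2 by positivity)
    have h2 : Real.cos b = 1 - 2 * Real.sin (b / 2) ^ 2 := by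
      have h3 := Real.cos_two_mul (b / 2)
      have h4 := Real.sin_sq_add_cos_sq (b / 2)
      have h5 : 2 * (b / 2) = b := by ring
      rw [h5] at h3
      linarith
    obtain ⟨s, hs⟩ : ∃ s : ℝ, s = Real.sin (b / 2) := ⟨_, rfl⟩
    rw [h2, ← hs]
    rw [← hs] at h1
    have e : 1 - 2 * s ^ 2 - 1 + b ^ 2 / 2 = 2 * ((b / 2 - s) * (b / 2 + s)) := by ring
    rw [e]
    have h6 : 0 ≤ b / 2 + s := by
      have : -(b / 2) ≤ s := by
        rw [hs]
        by_cases hb2 : b / 2 ≤ 1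
        · have := Real.sin_nonneg_of_nonneg_of_le_pi (show 0 ≤ b / 2 by positivity)
            (by linarith [Real.pi_gt_three])
          linarith
        · push Not at hb2
          linarith [Real.neg_one_le_sin (b / 2)]
      linarith
    refine ⟨by nlinarith [mul_nonneg h1.1 h6], ?_⟩
    have h7 : b / 2 + s ≤ b := by linarith [h1.1]
    have h8 : (b / 2 - s) * (b / 2 + s) ≤ (2 * (b / 2) ^ 3) * b :=
      mul_le_mul h1.2 h7 h6 (by positivity)
    nlinarith
  rcases le_total 0 b with h | h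
  · exact key b h
  · have := key (-b) (by linarith)
    rw [Real.cos_neg] at this
    have e1 : (-b) ^ 2 = b ^ 2 := by ring
    have e2 : (-b) ^ 4 = b ^ 4 := by ring
    rwa [e1, e2] at this

lemma cos_c (b : ℝ) : |Real.cos b - 1 + b ^ 2 / 2| ≤ |b| ^ 3 := by
  have h := cos_q b
  rw [abs_of_nonneg h.1]
  have e2 : b ^ 2 = |b| ^ 2 := (sq_abs b).symm
  have e4 : b ^ 4 = |b| ^ 4 := by
    have : b ^ 4 = (b ^ 2) ^ 2 := by ring
    rw [this, e2]; ring
  have h0 := abs_nonneg b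
  by_cases h1 : |b| ≤ 1
  · have h2 := h.2
    rw [e4] at h2
    have : |b| ^ 4 ≤ |b| ^ 3 := pow_le_pow_of_le_one h0 h1 (by norm_num)
    have h3 : 0 ≤ |b| ^ 3 := by positivity
    linarith
  · push Not at h1
    have h2 := Real.cos_le_one b
    have h3 : |b| ^ 2 ≤ |b| ^ 3 := pow_le_pow_right₀ h1.le (by norm_num)
    rw [e2]
    have h4 : 0 ≤ |b| ^ 2 := by positivity
    linarith

lemma sin_c (b : ℝ) : |Real.sin b - b| ≤ 2 * |b| ^ 3 := by
  rcases le_total 0 b with h | h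
  · have := sub_sin_le h
    rw [abs_sub_comm, abs_of_nonneg this.1, abs_of_nonneg h]
    exact this.2
  · have := sub_sin_le (show 0 ≤ -b by linarith)
    rw [Real.sin_neg] at this
    have e : Real.sin b - b = -b - -Real.sin b := by ring
    rw [e, abs_of_nonneg this.1, abs_of_nonpos h]
    exact this.2

lemma cos_taylor3 (a b : ℝ) : |Real.cos (a + b) - Real.cos a + b * Real.sin a +
    b ^ 2 / 2 * Real.cos a| ≤ 3 * |b| ^ 3 := by
  have e : Real.cos (a + b) - Real.cos a + b * Real.sin a + b ^ 2 / 2 * Real.cos a =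
      Real.cos a * (Real.cos b - 1 + b ^ 2 / 2) - Real.sin a * (Real.sin b - b) := by
    rw [Real.cos_add]; ring
  rw [e]
  refine (abs_sub _ _).trans ?_
  rw [abs_mul, abs_mul]
  have h1 := cos_c b
  have h2 := sin_c b
  have h3 := Real.abs_cos_le_one a
  have h4 := Real.abs_sin_le_one a
  have h5 : |Real.cos a| * |Real.cos b - 1 + b ^ 2 / 2| ≤ 1 * |b| ^ 3 :=
    mul_le_mul h3 h1 (abs_nonneg _) (by norm_num)
  have h6 : |Real.sin a| * |Real.sin b - b| ≤ 1 * (2 * |b| ^ 3) :=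
    mul_le_mul h4 h2 (abs_nonneg _) (by norm_num)
  linarith

lemma cos_taylor4 (a b : ℝ) : |Real.cos (a + b) + Real.cos (a - b) - 2 * Real.cos a +
    b ^ 2 * Real.cos a| ≤ b ^ 4 := by
  have e : Real.cos (a + b) + Real.cos (a - b) - 2 * Real.cos a + b ^ 2 * Real.cos a =
      2 * (Real.cos a * (Real.cos b - 1 + b ^ 2 / 2)) := by
    rw [Real.cos_add, Real.cos_sub]; ring
  rw [e, abs_mul, abs_mul, abs_of_pos (by norm_num : (0 : ℝ) < 2)]
  have h := cos_q b
  have h3 := Real.abs_cos_le_one a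
  rw [abs_of_nonneg h.1]
  have h5 : |Real.cos a| * (Real.cos b - 1 + b ^ 2 / 2) ≤ 1 * (b ^ 4 / 2) :=
    mul_le_mul h3 h.2 h.1 (by norm_num)
  linarith

/-- first derivative -/
noncomputable def d1 (Φ : ℝ → ℝ) (x : ℝ) : ℝ :=
  -∫ α, Φ α * (2 * Real.pi * α) * Real.sin (2 * Real.pi * α * x)

/-- second derivative -/
noncomputable def d2 (Φ : ℝ → ℝ) (x : ℝ) : ℝ :=
  -∫ α, Φ α * (2 * Real.pi * α) ^ 2 * Real.cos (2 * Real.pi * α * x)

lemma Tf.int_mul {B : ℝ} {Φ : ℝ → ℝ} (h : Tf B Φ) {F : ℝ → ℝ} (hF : Continuous F) :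
    Integrable fun α => Φ α * F α :=
  (h.cont.mul hF).integrable_of_hasCompactSupport h.hcs.mul_right

lemma int4 {f1 f2 f3 f4 : ℝ → ℝ} (h1 : Integrable f1) (h2 : Integrable f2) (h3 : Integrable f3)
    (h4 : Integrable f4) (a b c : ℝ) :
    ∫ α, (f1 α + a * f2 α + b * f3 α + c * f4 α) =
      (∫ α, f1 α) + a * (∫ α, f2 α) + b * (∫ α, f3 α) + c * ∫ α, f4 α := by
  have i2 := h2.const_mul a
  have i3 := h3.const_mul b
  have i4 := h4.const_mul c
  have e1 : ∫ α, (f1 α + a * f2 α + b * f3 α + c * f4 α) =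
      (∫ α, (f1 α + a * f2 α + b * f3 α)) + ∫ α, c * f4 α :=
    integral_add (f := fun α => f1 α + a * f2 α + b * f3 α) ((h1.add i2).add i3) i4
  have e2 : ∫ α, (f1 α + a * f2 α + b * f3 α) = (∫ α, (f1 α + a * f2 α)) + ∫ α, b * f3 α :=
    integral_add (f := fun α => f1 α + a * f2 α) (h1.add i2) i3
  have e3 : ∫ α, (f1 α + a * f2 α) = (∫ α, f1 α) + ∫ α, a * f2 α := integral_add h1 i2
  rw [e1, e2, e3, integral_const_mul, integral_const_mul, integral_const_mul]

/-- the third absolute moment -/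
noncomputable def m3 (Φ : ℝ → ℝ) : ℝ := 3 * ∫ α, |Φ α| * |2 * Real.pi * α| ^ 3

/-- the fourth absolute moment -/
noncomputable def m4 (Φ : ℝ → ℝ) : ℝ := ∫ α, |Φ α| * (2 * Real.pi * α) ^ 4

lemma m3_nonneg (Φ : ℝ → ℝ) : 0 ≤ m3 Φ :=
  mul_nonneg (by norm_num) (integral_nonneg fun α => by positivity)

lemma m4_nonneg (Φ : ℝ → ℝ) : 0 ≤ m4 Φ := integral_nonneg fun α => by positivity

lemma taylor3 {B : ℝ} {Φ : ℝ → ℝ} (h : Tf B Φ) (x u : ℝ) :
    |fl Φ (x + u) - fl Φ x - d1 Φ x * u - d2 Φ x / 2 * u ^ 2| ≤ m3 Φ * |u| ^ 3 := by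
  have e : fl Φ (x + u) - fl Φ x - d1 Φ x * u - d2 Φ x / 2 * u ^ 2 =
      ∫ α, Φ α * (Real.cos (2 * Real.pi * α * x + 2 * Real.pi * α * u) -
        Real.cos (2 * Real.pi * α * x) + 2 * Real.pi * α * u * Real.sin (2 * Real.pi * α * x) +
        (2 * Real.pi * α * u) ^ 2 / 2 * Real.cos (2 * Real.pi * α * x)) := by
    have i1 : Integrable fun α => Φ α * Real.cos (2 * Real.pi * α * (x + u)) :=
      h.int_mul (by fun_prop)
    have i2 : Integrable fun α => Φ α * Real.cos (2 * Real.pi * α * x) := h.int_mul (by fun_prop)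
    have i3 : Integrable fun α => Φ α * (2 * Real.pi * α) * Real.sin (2 * Real.pi * α * x) := by
      simp_rw [mul_assoc (Φ _)]
      exact h.int_mul (by fun_prop)
    have i4 : Integrable fun α => Φ α * (2 * Real.pi * α) ^ 2 * Real.cos (2 * Real.pi * α * x) := by
      simp_rw [mul_assoc (Φ _)]
      exact h.int_mul (by fun_prop)
    have e1 : ∀ α, Φ α * (Real.cos (2 * Real.pi * α * x + 2 * Real.pi * α * u) -
        Real.cos (2 * Real.pi * α * x) + 2 * Real.pi * α * u * Real.sin (2 * Real.pi * α * x) +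
        (2 * Real.pi * α * u) ^ 2 / 2 * Real.cos (2 * Real.pi * α * x)) =
        Φ α * Real.cos (2 * Real.pi * α * (x + u)) + (-1) * (Φ α * Real.cos (2 * Real.pi * α * x)) +
        u * (Φ α * (2 * Real.pi * α) * Real.sin (2 * Real.pi * α * x)) +
        u ^ 2 / 2 * (Φ α * (2 * Real.pi * α) ^ 2 * Real.cos (2 * Real.pi * α * x)) := by
      intro α
      rw [← mul_add (2 * Real.pi * α) x u]
      ring
    simp_rw [e1]
    rw [int4 i1 i2 i3 i4]
    unfold Pool.Agent.Y749.Rig.fl d1 d2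
    ring
  rw [e]
  refine (abs_integral_le_integral_abs).trans ?_
  have e2 : m3 Φ * |u| ^ 3 = ∫ α, 3 * (|Φ α| * |2 * Real.pi * α| ^ 3) * |u| ^ 3 := by
    unfold m3
    rw [integral_mul_const, integral_const_mul]
  rw [e2]
  refine integral_mono_of_nonneg (ae_of_all _ fun α => abs_nonneg _) ?_ (ae_of_all _ fun α => ?_)
  · have : Integrable fun α => |Φ α| * |2 * Real.pi * α| ^ 3 := by
      refine (h.cont.abs.mul (by fun_prop)).integrable_of_hasCompactSupport ?_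
      exact (h.hcs.comp_left (g := fun x : ℝ => |x|) (by simp)).mul_right
    exact (this.const_mul 3).mul_const _
  · simp only
    rw [abs_mul]
    have h1 := cos_taylor3 (2 * Real.pi * α * x) (2 * Real.pi * α * u)
    rw [abs_mul (2 * Real.pi * α) u] at h1
    have := mul_le_mul_of_nonneg_left h1 (abs_nonneg (Φ α))
    refine this.trans (le_of_eq ?_)
    ring

lemma taylor4 {B : ℝ} {Φ : ℝ → ℝ} (h : Tf B Φ) (x u : ℝ) :
    |fl Φ (x + u) + fl Φ (x - u) - 2 * fl Φ x - d2 Φ x * u ^ 2| ≤ m4 Φ * u ^ 4 := by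
  have e : fl Φ (x + u) + fl Φ (x - u) - 2 * fl Φ x - d2 Φ x * u ^ 2 =
      ∫ α, Φ α * (Real.cos (2 * Real.pi * α * x + 2 * Real.pi * α * u) +
        Real.cos (2 * Real.pi * α * x - 2 * Real.pi * α * u) -
        2 * Real.cos (2 * Real.pi * α * x) +
        (2 * Real.pi * α * u) ^ 2 * Real.cos (2 * Real.pi * α * x)) := by
    have i1 : Integrable fun α => Φ α * Real.cos (2 * Real.pi * α * (x + u)) :=
      h.int_mul (by fun_prop)
    have i1' : Integrable fun α => Φ α * Real.cos (2 * Real.pi * α * (x - u)) :=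
      h.int_mul (by fun_prop)
    have i2 : Integrable fun α => Φ α * Real.cos (2 * Real.pi * α * x) := h.int_mul (by fun_prop)
    have i4 : Integrable fun α => Φ α * (2 * Real.pi * α) ^ 2 * Real.cos (2 * Real.pi * α * x) := by
      simp_rw [mul_assoc (Φ _)]
      exact h.int_mul (by fun_prop)
    have e1 : ∀ α, Φ α * (Real.cos (2 * Real.pi * α * x + 2 * Real.pi * α * u) +
        Real.cos (2 * Real.pi * α * x - 2 * Real.pi * α * u) -
        2 * Real.cos (2 * Real.pi * α * x) +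
        (2 * Real.pi * α * u) ^ 2 * Real.cos (2 * Real.pi * α * x)) =
        Φ α * Real.cos (2 * Real.pi * α * (x + u)) +
        1 * (Φ α * Real.cos (2 * Real.pi * α * (x - u))) +
        (-2) * (Φ α * Real.cos (2 * Real.pi * α * x)) +
        u ^ 2 * (Φ α * (2 * Real.pi * α) ^ 2 * Real.cos (2 * Real.pi * α * x)) := by
      intro α
      rw [← mul_add (2 * Real.pi * α) x u, ← mul_sub (2 * Real.pi * α) x u]
      ring
    simp_rw [e1]
    rw [int4 i1 i1' i2 i4]
    unfold Pool.Agent.Y749.Rig.fl d2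
    ring
  rw [e]
  refine (abs_integral_le_integral_abs).trans ?_
  have e2 : m4 Φ * u ^ 4 = ∫ α, (|Φ α| * (2 * Real.pi * α) ^ 4) * u ^ 4 := by
    unfold m4
    rw [integral_mul_const]
  rw [e2]
  refine integral_mono_of_nonneg (ae_of_all _ fun α => abs_nonneg _) ?_ (ae_of_all _ fun α => ?_)
  · have : Integrable fun α => |Φ α| * (2 * Real.pi * α) ^ 4 := by
      refine (h.cont.abs.mul (by fun_prop)).integrable_of_hasCompactSupport ?_
      exact (h.hcs.comp_left (g := fun x : ℝ => |x|) (by simp)).mul_right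
    exact this.mul_const _
  · simp only
    rw [abs_mul]
    have h1 := cos_taylor4 (2 * Real.pi * α * x) (2 * Real.pi * α * u)
    have := mul_le_mul_of_nonneg_left h1 (abs_nonneg (Φ α))
    refine this.trans (le_of_eq ?_)
    ring

end Pool.Agent.K6.H57.PN
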