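import Pool.Agent.K6.H57.PN.Fn
import Pool.Agent.Y749.Rig.Rec

/-! # Scaled test functions, Poisson summation -/

set_option autoImplicit false

open MeasureTheory Set Filter Topology
open scoped FourierTransform ContDiff

namespace Pool.Agent.K6.H57.PN

open Pool.Agent.Y749.Rig (FL fl Adm FL_real fl_cont fl_even four_eq cc fl_bound fl_lip)

/-- the scaled test function -/
noncomputable def sc (h : ℝ) (Φ : ℝ → ℝ) (α : ℝ) : ℝ := h ^ 2 * Φ (h * α)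

/-- its transform -/
noncomputable def gs (h : ℝ) (Φ : ℝ → ℝ) (x : ℝ) : ℝ := h * fl Φ (x / h)

lemma gs_fl {h : ℝ} (hh : 0 < h) (Φ : ℝ → ℝ) : fl (sc h Φ) = gs h Φ := by
  funext x
  unfold Pool.Agent.Y749.Rig.fl sc gs Pool.Agent.Y749.Rig.fl
  have h1 := Measure.integral_comp_mul_left (fun α => Φ α * Real.cos (2 * Real.pi * α * (x / h))) h
  have e : ∀ α, h ^ 2 * Φ (h * α) * Real.cos (2 * Real.pi * α * x) =
      h ^ 2 * (Φ (h * α) * Real.cos (2 * Real.pi * (h * α) * (x / h))) := by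
    intro α
    have : 2 * Real.pi * (h * α) * (x / h) = 2 * Real.pi * α * x := by field_simp
    rw [this]; ring
  simp_rw [e]
  rw [integral_const_mul, h1, smul_eq_mul, abs_of_pos (inv_pos.2 hh), sq, mul_assoc,
    ← mul_assoc h h⁻¹, mul_inv_cancel₀ hh.ne', one_mul]

lemma sc_tf {B : ℝ} {Φ : ℝ → ℝ} (hΦ : Tf B Φ) {h : ℝ} (hh : 0 < h) : Tf (B / h) (sc h Φ) where
  pos := div_pos hΦ.pos hh
  sm := by
    unfold sc
    exact contDiff_const.mul (hΦ.sm.comp (contDiff_const.mul contDiff_id))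
  even := fun x => by unfold sc; rw [mul_neg, hΦ.even]
  supp := fun x hx => by
    unfold sc
    rw [hΦ.supp, mul_zero]
    rw [abs_mul, abs_of_pos hh]
    rw [div_le_iff₀ hh] at hx
    linarith

lemma Tf.adm {B : ℝ} {Φ : ℝ → ℝ} (hΦ : Tf B Φ) : Adm B Φ :=
  adm_of (hΦ.sm.of_le (by norm_cast)) hΦ.even hΦ.supp

/-- the first absolute moment -/
noncomputable def J (Φ : ℝ → ℝ) : ℝ := ∫ α, |α| * Φ α

lemma cc_sc {h : ℝ} (hh : 0 < h) (Φ : ℝ → ℝ) : cc (sc h Φ) = h ^ 2 * Φ 0 + J Φ := by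
  unfold Pool.Agent.Y749.Rig.cc sc J
  rw [mul_zero]
  congr 1
  have h1 := Measure.integral_comp_mul_left (fun α => |α| * Φ α) h
  have e : ∀ α, |α| * (h ^ 2 * Φ (h * α)) = h * (|h * α| * Φ (h * α)) := by
    intro α
    rw [abs_mul, abs_of_pos hh]; ring
  simp_rw [e]
  rw [integral_const_mul, h1, smul_eq_mul, abs_of_pos (inv_pos.2 hh)]
  field_simp

lemma gs_even (h : ℝ) (Φ : ℝ → ℝ) (x : ℝ) : gs h Φ (-x) = gs h Φ x := by
  unfold gs
  rw [neg_div, fl_even]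

/-- bounds -/
lemma dec6 {B : ℝ} {Φ : ℝ → ℝ} (hΦ : Tf B Φ) : ∃ D : ℝ, 0 < D ∧ ∀ h : ℝ, 0 < h → ∀ x : ℝ,
    |gs h Φ x| ≤ D * h ∧ |x| ^ 6 * |gs h Φ x| ≤ D * h ^ 7 := by
  obtain ⟨C0, h00, hC0⟩ := fl_decay hΦ 0
  obtain ⟨C6, h06, hC6⟩ := fl_decay hΦ 6
  refine ⟨C0 + C6 + 1, by positivity, fun h hh x => ?_⟩
  unfold gs
  rw [abs_mul, abs_of_pos hh]
  constructor
  · have := hC0 (x / h)
    rw [pow_zero, one_mul] at this
    nlinarith
  · have := hC6 (x / h)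
    rw [abs_div, abs_of_pos hh, div_pow] at this
    have h7 : 0 < h ^ 7 := by positivity
    have e : |x| ^ 6 * (h * |fl Φ (x / h)|) = (|x| ^ 6 / h ^ 6 * |fl Φ (x / h)|) * h ^ 7 := by
      field_simp
    rw [e]
    nlinarith

lemma sum_inv6 (K M : ℕ) (hK : 1 ≤ K) :
    ∑ k ∈ Finset.Ioc K M, 1 / (k : ℝ) ^ 6 ≤ 1 / (K : ℝ) ^ 5 := by
  have hK0 : (0 : ℝ) < K := by exact_mod_cast hK
  have h1 : ∀ k ∈ Finset.Ioc K M, 1 / (k : ℝ) ^ 6 ≤ (1 / (K : ℝ) ^ 4) * ((k : ℝ) ^ 2)⁻¹ := by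
    intro k hk
    rw [Finset.mem_Ioc] at hk
    have hk0 : (K : ℝ) ≤ k := by exact_mod_cast hk.1.le
    have hk1 : (0 : ℝ) < k := by linarith
    rw [one_div, one_div, ← mul_inv]
    apply inv_anti₀ (by positivity)
    have : (K : ℝ) ^ 4 ≤ (k : ℝ) ^ 4 := by gcongr
    calc (K : ℝ) ^ 4 * (k : ℝ) ^ 2 ≤ (k : ℝ) ^ 4 * (k : ℝ) ^ 2 := by gcongr
      _ = (k : ℝ) ^ 6 := by ring
  refine (Finset.sum_le_sum h1).trans ?_
  rw [← Finset.mul_sum]
  rcases le_or_gt M K with h2 | h2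
  · rw [Finset.Ioc_eq_empty_of_le h2, Finset.sum_empty, mul_zero]; positivity
  have h3 := sum_Ioc_inv_sq_le_sub (α := ℝ) (k := K) (n := M) (by omega) h2.le
  have h4 : (0 : ℝ) ≤ (M : ℝ)⁻¹ := by positivity
  calc 1 / (K : ℝ) ^ 4 * ∑ i ∈ Finset.Ioc K M, ((i : ℝ) ^ 2)⁻¹ ≤ 1 / (K : ℝ) ^ 4 * (K : ℝ)⁻¹ :=
        mul_le_mul_of_nonneg_left (by linarith) (by positivity)
    _ = 1 / (K : ℝ) ^ 5 := by field_simp

lemma gs_tail {Φ : ℝ → ℝ} {D h : ℝ}
    (hD : ∀ x : ℝ, |x| ^ 6 * |gs h Φ x| ≤ D * h ^ 7) (K M : ℕ) (hK : 1 ≤ K) :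
    ∑ k ∈ Finset.Ioc K M, |gs h Φ k| ≤ D * h ^ 7 / (K : ℝ) ^ 5 := by
  have hD0 : 0 ≤ D * h ^ 7 := by
    have := hD 0
    simpa using this
  have h1 : ∀ k ∈ Finset.Ioc K M, |gs h Φ k| ≤ D * h ^ 7 * (1 / (k : ℝ) ^ 6) := by
    intro k hk
    rw [Finset.mem_Ioc] at hk
    have hk1 : (0 : ℝ) < k := by exact_mod_cast (by omega : 0 < k)
    have := hD k
    rw [abs_of_pos hk1] at this
    rw [mul_one_div, le_div_iff₀ (by positivity)]
    linarith
  refine (Finset.sum_le_sum h1).trans ?_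
  rw [← Finset.mul_sum]
  refine (mul_le_mul_of_nonneg_left (sum_inv6 K M hK) hD0).trans (le_of_eq ?_)
  ring

lemma sum_range_Icc (f : ℕ → ℝ) (M : ℕ) :
    ∑ i ∈ Finset.range M, f (i + 1) = ∑ k ∈ Finset.Icc 1 M, f k := by
  induction M with
  | zero => simp
  | succ M ih => rw [Finset.sum_range_succ, ih, Finset.sum_Icc_succ_top (by omega)]

/-- **Poisson summation** -/
theorem poisson {B : ℝ} {Φ : ℝ → ℝ} (hΦ : Tf B Φ) {h : ℝ} (hB : B ≤ h) :
    Tendsto (fun M : ℕ => gs h Φ 0 + 2 * ∑ k ∈ Finset.Icc 1 M, gs h Φ k) atTop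
      (𝓝 (h ^ 2 * Φ 0)) := by
  have hh : 0 < h := hΦ.pos.trans_le hB
  have hsc := sc_tf hΦ hh
  have hg := gs_fl hh Φ
  obtain ⟨Q, hQ⟩ := fl_bound hsc.adm
  have hQ0 : 0 ≤ Q := by
    have := (abs_nonneg _).trans (hQ 0)
    simpa using this
  -- decay at infinity
  have hF : 𝓕 (fun α : ℝ => (sc h Φ α : ℂ)) = fun x : ℝ => (gs h Φ x : ℂ) := by
    funext x
    rw [four_eq hsc.int hsc.even, hg]
  have hOO : (fun x : ℝ => (gs h Φ x : ℂ)) =O[cocompact ℝ] (fun x : ℝ => |x| ^ (-2 : ℝ)) := by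
    refine Asymptotics.IsBigO.of_bound Q ?_
    have : ∀ᶠ x : ℝ in cocompact ℝ, 1 ≤ ‖x‖ := tendsto_norm_cocompact_atTop.eventually_ge_atTop 1
    filter_upwards [this] with x hx
    rw [Real.norm_eq_abs] at hx
    rw [Complex.norm_real, Real.norm_eq_abs, ← hg]
    refine (hQ x).trans ?_
    rw [Real.norm_eq_abs, abs_of_nonneg (by positivity), Real.rpow_neg (abs_nonneg _),
      Real.rpow_two, sq_abs, ← div_eq_mul_inv]
    have : 0 < x ^ 2 := by rw [← sq_abs]; positivity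
    gcongr
    linarith
  have hO1 : (fun α : ℝ => (sc h Φ α : ℂ)) =O[cocompact ℝ] (fun x : ℝ => |x| ^ (-2 : ℝ)) := by
    refine Asymptotics.IsBigO.of_bound 1 ?_
    have : ∀ᶠ x : ℝ in cocompact ℝ, B / h ≤ ‖x‖ :=
      tendsto_norm_cocompact_atTop.eventually_ge_atTop _
    filter_upwards [this] with x hx
    rw [hsc.supp x hx]
    simp only [Complex.ofReal_zero, norm_zero, one_mul]
    positivity
  have hP := Real.tsum_eq_tsum_fourier_of_rpow_decay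
    (f := fun α : ℝ => (sc h Φ α : ℂ)) (Complex.continuous_ofReal.comp hsc.cont)
    (b := 2) (by norm_num) hO1 (by rw [hF]; exact hOO) 0
  rw [hF] at hP
  have hsum : Summable fun n : ℤ => gs h Φ n := by
    have h1 : Summable fun n : ℤ => (gs h Φ n : ℂ) := summable_of_isBigO
      (Real.summable_abs_int_rpow (b := 2) (by norm_num)) (hOO.comp_tendsto Int.tendsto_coe_cofinite)
    exact_mod_cast h1
  have hL : ∑' n : ℤ, (sc h Φ (0 + (n : ℝ)) : ℂ) = ((h ^ 2 * Φ 0 : ℝ) : ℂ) := by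
    rw [tsum_eq_single 0]
    · unfold sc; simp
    · intro n hn
      have : sc h Φ (0 + (n : ℝ)) = 0 := by
        rw [zero_add]
        apply hsc.supp
        have h1 : (1 : ℝ) ≤ |(n : ℝ)| := by
          have := Int.one_le_abs hn
          exact_mod_cast this
        refine le_trans ?_ h1
        rw [div_le_one hh]
        exact hB
      rw [this]; simp
  have hR : ∑' n : ℤ, (gs h Φ n : ℂ) * fourier n ((0 : ℝ) : UnitAddCircle) =
      ((∑' n : ℤ, gs h Φ n : ℝ) : ℂ) := by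
    rw [Complex.ofReal_tsum]
    refine tsum_congr fun n => ?_
    have : fourier n ((0 : ℝ) : UnitAddCircle) = 1 := by simp
    rw [this, mul_one]
  rw [hL, hR] at hP
  have hP' : h ^ 2 * Φ 0 = ∑' n : ℤ, gs h Φ n := by exact_mod_cast hP
  rw [hP', tsum_int_eq_zero_add_two_mul_tsum_pnat (fun n => by
    push_cast; exact gs_even h Φ n) hsum]
  have hs2 : Summable fun n : ℕ => gs h Φ ((n + 1 : ℕ) : ℝ) := by
    have h1 : Summable fun n : ℕ => gs h Φ ((n : ℤ) : ℝ) :=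
      hsum.comp_injective (Nat.cast_injective (R := ℤ))
    have h2 := (summable_nat_add_iff 1).2 h1
    refine h2.congr fun n => ?_
    push_cast
    rfl
  have e1 : ∑' n : ℕ+, gs h Φ (((n : ℕ) : ℤ) : ℝ) = ∑' n : ℕ, gs h Φ ((n + 1 : ℕ) : ℝ) := by
    have := tsum_pnat_eq_tsum_succ (f := fun n : ℕ => gs h Φ (n : ℝ))
    simpa using this
  have e0 : gs h Φ ((0 : ℤ) : ℝ) = gs h Φ 0 := by simp
  rw [e0, e1, nsmul_eq_mul, Nat.cast_ofNat]
  refine Tendsto.const_add _ (Tendsto.const_mul _ ?_)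
  have h3 := hs2.hasSum.tendsto_sum_nat
  refine h3.congr fun M => ?_
  exact sum_range_Icc (fun k => gs h Φ k) M

end Pool.Agent.K6.H57.PN
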