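import Pool.Agent.Y749.AH.Gap2
import Pool.Agent.R320.CL.Asm

/-! # From pairs of ordinates to sums of unfolded gaps -/

set_option autoImplicit false

open MeasureTheory Set Filter Topology

namespace Pool.Agent.K6.H57.PN

open Pool.Agent.Y749.Rig (Mp nT nT_pos Bdd DD lint_le Mp_bdd DD_tendsto DD_nonneg one_lt_log)
open Pool.Agent.Y749.AH (II xx mem_II card_II Mp_ix sum_sym pairs_bad N_asymp xx_nonneg)
open SG (ord NZ)
open Pool.Agent.R320.CL (SS dl)

lemma tail_int {m : Measure ℝ} {C : ℝ} (hC : 0 ≤ C) (hm : Bdd C m) (n : ℕ) :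
    ∫ x in {x : ℝ | (n : ℝ) ≤ |x|}, 1 / (1 + x ^ 2) ∂m ≤ 2 * C * DD n := by
  rw [integral_eq_lintegral_of_nonneg_ae (ae_of_all _ fun x => by positivity)
    (by
      have : Continuous fun x : ℝ => 1 / (1 + x ^ 2) :=
        Continuous.div continuous_const (by fun_prop) fun x => by positivity
      exact this.aestronglyMeasurable)]
  exact ENNReal.toReal_le_of_le_ofReal (mul_nonneg (by positivity) (DD_nonneg n)) (lint_le hC hm n)

/-- pairs at a large distance -/
lemma tail_sum (hRH : RiemannHypothesis) {C T : ℝ} (hC : 0 ≤ C) (hT : 10 ≤ T) (hb : Bdd C (Mp T))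
    (r : ℕ) : ∑ p ∈ ((II T) ×ˢ (II T)).filter (fun p : ℕ × ℕ => (r : ℝ) ≤ |xx T p.1 p.2|),
      1 / (1 + xx T p.1 p.2 ^ 2) ≤ 2 * C * DD r * nT T := by
  have h1 := tail_int hC hb r
  have hms : MeasurableSet {x : ℝ | (r : ℝ) ≤ |x|} :=
    measurableSet_le measurable_const continuous_abs.measurable
  rw [← integral_indicator hms, Mp_ix hRH hT, div_le_iff₀ (nT_pos hT)] at h1
  refine le_trans (le_of_eq ?_) h1
  rw [Finset.sum_filter, Finset.sum_product]
  refine Finset.sum_congr rfl fun i _ => Finset.sum_congr rfl fun j _ => ?_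
  simp only [indicator, mem_ofPred_eq]

/-- pairs of distant indices -/
theorem far (hRH : RiemannHypothesis) {g : ℝ → ℝ} {B : ℝ} (hg : ∀ x, |g x| ≤ B / (1 + x ^ 2))
    {η : ℝ} (hη : 0 < η) : ∃ K0 : ℕ, ∀ᶠ T in atTop, ∀ K : ℕ, K0 ≤ K →
    ∑ p ∈ ((II T) ×ˢ (II T)).filter (fun p : ℕ × ℕ => p.2 + K < p.1), |g (xx T p.1 p.2)| ≤
      η * nT T := by
  classical
  have hB0 : 0 ≤ B := by
    have := (abs_nonneg _).trans (hg 0)
    simpa using this
  obtain ⟨C, hC2, hC⟩ := Mp_bdd
  have hC0 : 0 ≤ C := by linarith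
  obtain ⟨r, hr1, hr⟩ : ∃ r : ℕ, 1 ≤ r ∧ B * (2 * C * DD r) ≤ η / 2 := by
    have h1 : Tendsto (fun n => B * (2 * C * DD n)) atTop (𝓝 (B * (2 * C * 0))) :=
      (DD_tendsto.const_mul _).const_mul _
    rw [mul_zero, mul_zero] at h1
    have h2 := h1.eventually_le_const (show (0 : ℝ) < η / 2 by positivity)
    obtain ⟨n, hn⟩ := (h2.and (eventually_ge_atTop 1)).exists
    exact ⟨n, hn.2, hn.1⟩
  have hr0 : (0 : ℝ) < r := by exact_mod_cast hr1
  obtain ⟨M, hM1, κ, hκ, hM⟩ := pairs_bad hRH hr0 (show 0 < η / (4 * (B + 1)) by positivity)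
  refine ⟨M, ?_⟩
  filter_upwards [hC, hM 1 one_pos, eventually_ge_atTop 10, N_asymp (show (0 : ℝ) < 1 by norm_num)]
    with T hb hbad hT hN K hK
  have hn := nT_pos hT
  have h1 := tail_sum hRH hC0 hT hb r
  have h2 := hbad ∅
  rw [Finset.card_empty, Nat.cast_zero, mul_zero, add_zero] at h2
  -- split
  have h3 : ∑ p ∈ ((II T) ×ˢ (II T)).filter (fun p : ℕ × ℕ => p.2 + K < p.1), |g (xx T p.1 p.2)| ≤
      ∑ p ∈ ((II T) ×ˢ (II T)).filter (fun p : ℕ × ℕ => (r : ℝ) ≤ |xx T p.1 p.2|),
        |g (xx T p.1 p.2)| +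
      ∑ p ∈ ((II T) ×ˢ (II T)).filter (fun p : ℕ × ℕ => p.2 < p.1 ∧ xx T p.1 p.2 ≤ r ∧
      ¬ (κ * T ≤ ord p.2 ∧ p.1 < p.2 + M ∧ (∀ b, p.2 ≤ b → b < p.1 → b ∉ (∅ : Finset ℕ)) ∧
        |xx T p.1 p.2 - (Pool.Agent.Y749.AH.gt p.1 - Pool.Agent.Y749.AH.gt p.2)| ≤ 1)),
        |g (xx T p.1 p.2)| := by
    rw [← Finset.sum_union_inter]
    refine le_trans ?_ (le_add_of_nonneg_right (Finset.sum_nonneg fun p _ => abs_nonneg _))
    refine Finset.sum_le_sum_of_subset_of_nonneg ?_ fun p _ _ => abs_nonneg _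
    intro p hp
    rw [Finset.mem_filter] at hp
    rw [Finset.mem_union, Finset.mem_filter, Finset.mem_filter]
    by_cases hx : (r : ℝ) ≤ |xx T p.1 p.2|
    · exact Or.inl ⟨hp.1, hx⟩
    · right
      push Not at hx
      refine ⟨hp.1, by omega, (le_abs_self _).trans hx.le, ?_⟩
      rintro ⟨-, h, -⟩
      omega
  have h4 : ∑ p ∈ ((II T) ×ˢ (II T)).filter (fun p : ℕ × ℕ => (r : ℝ) ≤ |xx T p.1 p.2|),
        |g (xx T p.1 p.2)| ≤ B * (2 * C * DD r * nT T) := by
    refine le_trans ?_ (mul_le_mul_of_nonneg_left h1 hB0)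
    rw [Finset.mul_sum]
    refine Finset.sum_le_sum fun p _ => (hg _).trans (le_of_eq ?_)
    ring
  have h5 : ∀ x, |g x| ≤ B := fun x => (hg x).trans (div_le_self hB0 (by nlinarith [sq_nonneg x]))
  have h6 := Finset.sum_le_card_nsmul (((II T) ×ˢ (II T)).filter (fun p : ℕ × ℕ => p.2 < p.1 ∧
      xx T p.1 p.2 ≤ r ∧
      ¬ (κ * T ≤ ord p.2 ∧ p.1 < p.2 + M ∧ (∀ b, p.2 ≤ b → b < p.1 → b ∉ (∅ : Finset ℕ)) ∧
        |xx T p.1 p.2 - (Pool.Agent.Y749.AH.gt p.1 - Pool.Agent.Y749.AH.gt p.2)| ≤ 1)))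
      (fun p => |g (xx T p.1 p.2)|) B (fun p _ => h5 _)
  rw [nsmul_eq_mul] at h6
  have h7 := mul_le_mul_of_nonneg_right h2 hB0
  have h8 : η / (4 * (B + 1)) * NZ T * B ≤ η / 2 * nT T := by
    have e : η / (4 * (B + 1)) * NZ T * B = (B / (B + 1)) * (η / 4 * NZ T) := by
      field_simp
    rw [e]
    have h9 : B / (B + 1) ≤ 1 := by
      rw [div_le_one (by positivity)]; linarith
    calc B / (B + 1) * (η / 4 * NZ T) ≤ 1 * (η / 4 * NZ T) :=
          mul_le_mul_of_nonneg_right h9 (by positivity)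
      _ ≤ η / 2 * nT T := by nlinarith [hN.2]
  have h9 : B * (2 * C * DD r * nT T) ≤ η / 2 * nT T := by
    have := mul_le_mul_of_nonneg_right hr hn.le
    linarith
  linarith

/-- the two normalisations -/
lemma SS_xx {T κ : ℝ} (hT : 3 ≤ T) (hκ : 0 < κ) {j k : ℕ} (hj : 1 ≤ j) (hk : j + k ≤ NZ T)
    (hjT : κ * T ≤ ord j) :
    |xx T (j + k) j - SS k j| ≤ xx T (j + k) j * (|Real.log (κ / (2 * Real.pi))| / Real.log T) := by
  have hL := one_lt_log hT
  have hpi := Real.pi_pos
  have hpi3 := Real.pi_gt_three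
  have hxx : xx T (j + k) j = ∑ i ∈ Finset.range k,
      (ord (j + i + 1) - ord (j + i)) * Real.log T / (2 * Real.pi) := by
    have h := Finset.sum_range_sub (fun i => ord (j + i)) k
    unfold xx
    rw [← Finset.sum_div, ← Finset.sum_mul]
    congr 2
    rw [add_zero] at h
    rw [← h]
    rfl
  have h1 : ∀ i ∈ Finset.range k, |(ord (j + i + 1) - ord (j + i)) * Real.log T / (2 * Real.pi) -
      dl (j + i)| ≤ (ord (j + i + 1) - ord (j + i)) * Real.log T / (2 * Real.pi) *
        (|Real.log (κ / (2 * Real.pi))| / Real.log T) := by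
    intro i hi
    rw [Finset.mem_range] at hi
    have g1 : 0 ≤ ord (j + i + 1) - ord (j + i) :=
      sub_nonneg.2 (SG.ord_mono (by omega) (by omega))
    have g2 : κ * T ≤ ord (j + i) := hjT.trans (SG.ord_mono hj (by omega))
    have g3 : ord (j + i) ≤ T := (SG.ord_le_iff (by omega) T).2 (by omega)
    have g0 : 0 < κ * T := by positivity
    have g4 : Real.log (κ * T / (2 * Real.pi)) ≤ Real.log (ord (j + i) / (2 * Real.pi)) :=
      Real.log_le_log (by positivity) (by gcongr)
    have g5 : Real.log (ord (j + i) / (2 * Real.pi)) ≤ Real.log T := by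
      apply Real.log_le_log (by positivity [g0.trans_le g2])
      rw [div_le_iff₀ (by positivity)]
      nlinarith
    have g6 : Real.log (κ * T / (2 * Real.pi)) = Real.log T + Real.log (κ / (2 * Real.pi)) := by
      rw [← Real.log_mul (by positivity) (by positivity)]
      congr 1
      ring
    have e : (ord (j + i + 1) - ord (j + i)) * Real.log T / (2 * Real.pi) - dl (j + i) =
        (ord (j + i + 1) - ord (j + i)) / (2 * Real.pi) *
          (Real.log T - Real.log (ord (j + i) / (2 * Real.pi))) := by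
      unfold Pool.Agent.R320.CL.dl
      ring
    have e2 : (ord (j + i + 1) - ord (j + i)) * Real.log T / (2 * Real.pi) *
        (|Real.log (κ / (2 * Real.pi))| / Real.log T) =
        (ord (j + i + 1) - ord (j + i)) / (2 * Real.pi) * |Real.log (κ / (2 * Real.pi))| := by
      field_simp
    rw [e, e2, abs_mul, abs_of_nonneg (by positivity :
      0 ≤ (ord (j + i + 1) - ord (j + i)) / (2 * Real.pi))]
    refine mul_le_mul_of_nonneg_left ?_ (by positivity)
    rw [abs_of_nonneg (by linarith)]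
    have := neg_abs_le (Real.log (κ / (2 * Real.pi)))
    linarith
  have e : xx T (j + k) j - SS k j = ∑ i ∈ Finset.range k,
      ((ord (j + i + 1) - ord (j + i)) * Real.log T / (2 * Real.pi) - dl (j + i)) := by
    rw [Finset.sum_sub_distrib, ← hxx]
    rfl
  rw [e]
  refine (Finset.abs_sum_le_sum_abs _ _).trans ((Finset.sum_le_sum h1).trans (le_of_eq ?_))
  rw [← Finset.sum_mul, ← hxx]

/-- the sum of the distances to the `k`-th neighbour -/
lemma tel (T : ℝ) (hT : 3 ≤ T) (k : ℕ) :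
    ∑ j ∈ (II T).filter (fun j => j + k ≤ NZ T), xx T (j + k) j ≤ k * nT T := by
  have hL := one_lt_log hT
  have hpi := Real.pi_pos
  induction k with
  | zero =>
    simp only [Nat.cast_zero, zero_mul]
    refine le_of_eq (Finset.sum_eq_zero fun j _ => ?_)
    unfold xx
    simp
  | succ k ih =>
    have h1 : ∀ j, xx T (j + (k + 1)) j = xx T (j + k) j + xx T (j + k + 1) (j + k) := by
      intro j
      unfold xx
      have : j + (k + 1) = j + k + 1 := by ring
      rw [this]
      ring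
    simp_rw [h1]
    rw [Finset.sum_add_distrib]
    have h2 : ∑ j ∈ (II T).filter (fun j => j + (k + 1) ≤ NZ T), xx T (j + k) j ≤
        ∑ j ∈ (II T).filter (fun j => j + k ≤ NZ T), xx T (j + k) j := by
      refine Finset.sum_le_sum_of_subset_of_nonneg ?_ fun j hj _ => ?_
      · intro j hj
        rw [Finset.mem_filter] at hj ⊢
        exact ⟨hj.1, by omega⟩
      · rw [Finset.mem_filter, mem_II] at hj
        exact xx_nonneg (by linarith) hj.1.1 (by omega)
    have h3 : ∑ j ∈ (II T).filter (fun j => j + (k + 1) ≤ NZ T), xx T (j + k + 1) (j + k) ≤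
        ∑ m ∈ Finset.Ico 1 (NZ T), xx T (m + 1) m := by
      rw [← Finset.sum_image (f := fun m => xx T (m + 1) m) (g := fun j => j + k)
        (fun a _ b _ h => Nat.add_right_cancel h)]
      refine Finset.sum_le_sum_of_subset_of_nonneg ?_ fun m hm _ => ?_
      · intro m hm
        rw [Finset.mem_image] at hm
        obtain ⟨j, hj, rfl⟩ := hm
        rw [Finset.mem_filter, mem_II] at hj
        rw [Finset.mem_Ico]
        omega
      · rw [Finset.mem_Ico] at hm
        exact xx_nonneg (by linarith) hm.1 (by omega)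
    have h4 : ∑ m ∈ Finset.Ico 1 (NZ T), xx T (m + 1) m ≤ nT T := by
      rcases Nat.eq_zero_or_pos (NZ T) with h0 | h0
      · rw [h0]
        simp only [Finset.Ico_eq_empty_of_le (show 0 ≤ 1 by norm_num), Finset.sum_empty]
        unfold nT
        have : 0 < T := by linarith
        positivity
      have e : ∑ m ∈ Finset.Ico 1 (NZ T), xx T (m + 1) m =
          (ord (NZ T) - ord 1) * Real.log T / (2 * Real.pi) := by
        unfold xx
        rw [← Finset.sum_div, ← Finset.sum_mul, Finset.sum_Ico_sub (fun m => ord m) h0]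
      rw [e]
      unfold nT
      have g1 : ord (NZ T) ≤ T := (SG.ord_le_iff h0 T).2 le_rfl
      have g2 : 0 < ord 1 := SG.ord_pos le_rfl
      gcongr
      linarith
    push_cast
    linarith

/-- one lag -/
theorem near {g : ℝ → ℝ} {B Lp : ℝ} (hB : ∀ x, |g x| ≤ B) (hLp : ∀ x y, |g x - g y| ≤ Lp * |x - y|)
    (k : ℕ) {η : ℝ} (hη : 0 < η) : ∀ᶠ T in atTop,
    |∑ j ∈ (II T).filter (fun j => j + k ≤ NZ T), g (xx T (j + k) j) - ∑ j ∈ II T, g (SS k j)| ≤
      η * nT T := by
  classical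
  have hB0 : 0 ≤ B := (abs_nonneg _).trans (hB 0)
  have hLp0 : 0 ≤ Lp := by
    have := (abs_nonneg _).trans (hLp 1 0)
    simpa using this
  obtain ⟨κ, hκ⟩ : ∃ κ : ℝ, κ = min 1 (η / (16 * (B + 1))) := ⟨_, rfl⟩
  have hκ0 : 0 < κ := by rw [hκ]; exact lt_min one_pos (by positivity)
  have hκ1 : κ ≤ 1 := by rw [hκ]; exact min_le_left _ _
  have hκ2 : κ * B ≤ η / 16 := by
    have : κ ≤ η / (16 * (B + 1)) := by rw [hκ]; exact min_le_right _ _
    rw [le_div_iff₀ (by positivity)] at this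
    nlinarith
  have hκT : Tendsto (fun T : ℝ => κ * T) atTop atTop := tendsto_id.const_mul_atTop hκ0
  have hnT : Tendsto nT atTop atTop := by
    unfold nT
    have h1 : Tendsto (fun T : ℝ => T * Real.log T) atTop atTop :=
      tendsto_id.atTop_mul_atTop₀ Real.tendsto_log_atTop
    exact h1.atTop_div_const (by positivity)
  filter_upwards [eventually_ge_atTop 10, hκT.eventually (N_asymp (show (0 : ℝ) < 1 by norm_num)),
    hnT.eventually_ge_atTop (4 * B * k / η), hκT.eventually_ge_atTop 10,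
    Real.tendsto_log_atTop.eventually_ge_atTop (4 * (Lp * (k * |Real.log (κ / (2 * Real.pi))|)) / η)]
    with T hT hN hbig hκT10 hlog
  have hn := nT_pos hT
  have hL := one_lt_log (show 3 ≤ T by linarith)
  have hpi := Real.pi_pos
  -- the sum over all the indices is cut
  have e1 : ∑ j ∈ II T, g (SS k j) = ∑ j ∈ (II T).filter (fun j => j + k ≤ NZ T), g (SS k j) +
      ∑ j ∈ (II T).filter (fun j => ¬ j + k ≤ NZ T), g (SS k j) :=
    (Finset.sum_filter_add_sum_filter_not _ _ _).symm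
  have h1 : |∑ j ∈ (II T).filter (fun j => ¬ j + k ≤ NZ T), g (SS k j)| ≤ k * B := by
    refine (Finset.abs_sum_le_sum_abs _ _).trans ?_
    refine (Finset.sum_le_card_nsmul _ _ B fun j _ => hB _).trans ?_
    rw [nsmul_eq_mul]
    refine mul_le_mul_of_nonneg_right ?_ hB0
    have : (II T).filter (fun j => ¬ j + k ≤ NZ T) ⊆ Finset.Ioc (NZ T - k) (NZ T) := by
      intro j hj
      rw [Finset.mem_filter] at hj
      have h2 := hj.1
      unfold Pool.Agent.Y749.AH.II at h2
      rw [Finset.mem_Ioc] at h2 ⊢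
      omega
    have h3 := Finset.card_le_card this
    rw [Nat.card_Ioc] at h3
    have h4 : ((II T).filter (fun j => ¬ j + k ≤ NZ T)).card ≤ k := by omega
    exact_mod_cast h4
  -- the main part
  have e2 : ∑ j ∈ (II T).filter (fun j => j + k ≤ NZ T), g (xx T (j + k) j) - ∑ j ∈ II T, g (SS k j)
      = ∑ j ∈ (II T).filter (fun j => j + k ≤ NZ T), (g (xx T (j + k) j) - g (SS k j)) -
        ∑ j ∈ (II T).filter (fun j => ¬ j + k ≤ NZ T), g (SS k j) := by
    rw [e1, Finset.sum_sub_distrib]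
    ring
  have h2 : ∀ j ∈ (II T).filter (fun j => j + k ≤ NZ T), |g (xx T (j + k) j) - g (SS k j)| ≤
      Lp * (xx T (j + k) j * (|Real.log (κ / (2 * Real.pi))| / Real.log T)) +
        (if ord j < κ * T then 2 * B else 0) := by
    intro j hj
    rw [Finset.mem_filter, mem_II] at hj
    have hx0 := xx_nonneg (T := T) (by linarith) hj.1.1 (show j ≤ j + k by omega)
    by_cases hc : ord j < κ * T
    · rw [if_pos hc]
      have g1 : |g (xx T (j + k) j) - g (SS k j)| ≤ B + B :=
        (abs_sub _ _).trans (add_le_add (hB _) (hB _))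
      have g2 : 0 ≤ Lp * (xx T (j + k) j * (|Real.log (κ / (2 * Real.pi))| / Real.log T)) := by
        positivity
      linarith
    · rw [if_neg hc, add_zero]
      push Not at hc
      exact (hLp _ _).trans (mul_le_mul_of_nonneg_left
        (SS_xx (by linarith) hκ0 hj.1.1 hj.2 hc) hLp0)
  have h3 : |∑ j ∈ (II T).filter (fun j => j + k ≤ NZ T), (g (xx T (j + k) j) - g (SS k j))| ≤
      Lp * (k * nT T * (|Real.log (κ / (2 * Real.pi))| / Real.log T)) + 2 * B * NZ (κ * T) := by
    refine (Finset.abs_sum_le_sum_abs _ _).trans ((Finset.sum_le_sum h2).trans ?_)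
    rw [Finset.sum_add_distrib, ← Finset.mul_sum, ← Finset.sum_mul]
    refine add_le_add ?_ ?_
    · refine mul_le_mul_of_nonneg_left ?_ hLp0
      exact mul_le_mul_of_nonneg_right (tel T (by linarith) k) (by positivity)
    · rw [← Finset.sum_filter, Finset.sum_const, nsmul_eq_mul, mul_comm]
      refine mul_le_mul_of_nonneg_left ?_ (by positivity)
      have : ((II T).filter (fun j => j + k ≤ NZ T)).filter (fun j => ord j < κ * T) ⊆
          II (κ * T) := by
        intro j hj
        rw [Finset.mem_filter, Finset.mem_filter, mem_II] at hj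
        rw [mem_II]
        exact ⟨hj.1.1.1, hj.2.le⟩
      have h4 := Finset.card_le_card this
      rw [← card_II]
      exact_mod_cast h4
  have h4 : nT (κ * T) ≤ κ * nT T := by
    unfold nT
    have h3 : Real.log (κ * T) ≤ Real.log T := by
      apply Real.log_le_log (by positivity)
      nlinarith
    rw [mul_div_assoc', mul_assoc]
    gcongr
  have h5 : 2 * B * NZ (κ * T) ≤ η / 4 * nT T := by
    have : (NZ (κ * T) : ℝ) ≤ 2 * (κ * nT T) := by linarith [hN.2]
    calc 2 * B * NZ (κ * T) ≤ 2 * B * (2 * (κ * nT T)) :=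
          mul_le_mul_of_nonneg_left this (by positivity)
      _ = 4 * (κ * B) * nT T := by ring
      _ ≤ 4 * (η / 16) * nT T := by gcongr
      _ = η / 4 * nT T := by ring
  have h6 : k * B ≤ η / 4 * nT T := by
    rw [div_le_iff₀ hη] at hbig
    linarith
  have h7 : Lp * (k * nT T * (|Real.log (κ / (2 * Real.pi))| / Real.log T)) ≤ η / 4 * nT T := by
    rw [div_le_iff₀ hη] at hlog
    have : Lp * (k * nT T * (|Real.log (κ / (2 * Real.pi))| / Real.log T)) =
        (Lp * (k * |Real.log (κ / (2 * Real.pi))|)) / Real.log T * nT T := by ring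
    rw [this]
    refine mul_le_mul_of_nonneg_right ?_ hn.le
    rw [div_le_iff₀ (by linarith)]
    linarith
  rw [e2]
  refine (abs_sub _ _).trans ?_
  have : 0 < η / 4 * nT T := by positivity
  linarith

end Pool.Agent.K6.H57.PN
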