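import Pool.Agent.K6.H57.PN.Ix
import Pool.Agent.K6.H57.PN.Cmb
import Pool.Agent.Y743.LR.NT5

/-! # The pair sums as averages over consecutive ordinates -/

set_option autoImplicit false

open MeasureTheory Set Filter Topology

namespace Pool.Agent.K6.H57.PN

open Pool.Agent.Y749.Rig (Mp nT nT_pos Bdd DD lint_le Mp_bdd DD_tendsto DD_nonneg one_lt_log)
open Pool.Agent.Y749.AH (II xx mem_II card_II Mp_ix sum_sym pairs_bad N_asymp xx_nonneg)
open SG (ord NZ)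
open Pool.Agent.R320.CL (SS dl)

lemma reindex (T : ℝ) (f : ℕ → ℕ → ℝ) (K : ℕ) :
    ∑ p ∈ ((II T) ×ˢ (II T)).filter (fun p : ℕ × ℕ => p.2 < p.1 ∧ p.1 ≤ p.2 + K), f p.1 p.2 =
      ∑ k ∈ Finset.Icc 1 K, ∑ j ∈ (II T).filter (fun j => j + k ≤ NZ T), f (j + k) j := by
  classical
  rw [Finset.sum_sigma']
  refine Finset.sum_bij' (i := fun p _ => (⟨p.1 - p.2, p.2⟩ : (_ : ℕ) × ℕ))
    (j := fun q _ => (q.2 + q.1, q.2)) ?_ ?_ ?_ ?_ ?_
  · intro p hp
    rw [Finset.mem_filter, Finset.mem_product] at hp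
    have h1 := hp.1.1
    have h2 := hp.1.2
    unfold Pool.Agent.Y749.AH.II at h1 h2
    rw [Finset.mem_Ioc] at h1 h2
    simp only [Finset.mem_sigma, Finset.mem_Icc, Finset.mem_filter]
    unfold Pool.Agent.Y749.AH.II
    rw [Finset.mem_Ioc]
    omega
  · intro q hq
    simp only [Finset.mem_sigma, Finset.mem_Icc, Finset.mem_filter] at hq
    have h1 := hq.2.1
    unfold Pool.Agent.Y749.AH.II at h1
    rw [Finset.mem_Ioc] at h1
    rw [Finset.mem_filter, Finset.mem_product]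
    unfold Pool.Agent.Y749.AH.II
    rw [Finset.mem_Ioc, Finset.mem_Ioc]
    simp only
    omega
  · intro p hp
    rw [Finset.mem_filter] at hp
    ext
    · simp only; omega
    · rfl
  · intro q hq
    simp only
    ext
    · simp
    · rfl
  · intro p hp
    rw [Finset.mem_filter] at hp
    simp only
    congr 1
    omega

theorem pairT (hRH : RiemannHypothesis) {g : ℝ → ℝ} {B Lp L : ℝ} (he : ∀ x, g (-x) = g x)
    (hB : ∀ x, |g x| ≤ B / (1 + x ^ 2)) (hLp : ∀ x y, |g x - g y| ≤ Lp * |x - y|)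
    (hL : Tendsto (fun T => ∫ x, g x ∂(Mp T)) atTop (𝓝 L)) {ε : ℝ} (hε : 0 < ε) :
    ∃ K0 : ℕ, ∀ K : ℕ, K0 ≤ K → ∀ᶠ T in atTop,
      |∑ n ∈ II T, (g 0 + 2 * ∑ k ∈ Finset.Icc 1 K, g (SS k n)) - L * nT T| ≤ ε * nT T := by
  classical
  have hB0 : 0 ≤ B := by
    have := (abs_nonneg _).trans (hB 0)
    simpa using this
  have hB1 : ∀ x, |g x| ≤ B := fun x => (hB x).trans (div_le_self hB0 (by nlinarith [sq_nonneg x]))
  obtain ⟨K0, hK0⟩ := far hRH hB (show 0 < ε / 8 by positivity)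
  refine ⟨K0, fun K hK => ?_⟩
  have hnear : ∀ᶠ T in atTop, ∀ k ∈ Finset.Icc 1 K,
      |∑ j ∈ (II T).filter (fun j => j + k ≤ NZ T), g (xx T (j + k) j) -
        ∑ j ∈ II T, g (SS k j)| ≤ ε / (8 * (K + 1)) * nT T :=
    (Filter.eventually_all_finset _).2 fun k _ => near hB1 hLp k (by positivity)
  have hL' : ∀ᶠ T in atTop, |(∫ x, g x ∂(Mp T)) - L| ≤ ε / 4 := by
    have := (Metric.tendsto_nhds.1 hL) (ε / 4) (by positivity)
    filter_upwards [this] with T hT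
    rw [Real.dist_eq] at hT
    exact hT.le
  filter_upwards [hK0, hnear, hL', eventually_ge_atTop 10] with T hfar hn1 hl hT
  have hn := nT_pos hT
  have h1 := hfar K hK
  rw [Mp_ix hRH hT] at hl
  have e1 := sum_sym T he
  have e2 : ∑ p ∈ ((II T) ×ˢ (II T)).filter (fun p : ℕ × ℕ => p.2 < p.1), g (xx T p.1 p.2) =
      ∑ p ∈ ((II T) ×ˢ (II T)).filter (fun p : ℕ × ℕ => p.2 < p.1 ∧ p.1 ≤ p.2 + K),
        g (xx T p.1 p.2) +
      ∑ p ∈ ((II T) ×ˢ (II T)).filter (fun p : ℕ × ℕ => p.2 + K < p.1), g (xx T p.1 p.2) := by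
    rw [← Finset.sum_filter_add_sum_filter_not (((II T) ×ˢ (II T)).filter
      (fun p : ℕ × ℕ => p.2 < p.1)) (fun p : ℕ × ℕ => p.1 ≤ p.2 + K)]
    congr 1
    · rw [Finset.filter_filter]
    · rw [Finset.filter_filter]
      refine Finset.sum_congr (Finset.filter_congr fun p _ => ?_) fun _ _ => rfl
      omega
  rw [reindex T (fun i j => g (xx T i j)) K] at e2
  have e3 : ∑ n ∈ II T, (g 0 + 2 * ∑ k ∈ Finset.Icc 1 K, g (SS k n)) =
      NZ T * g 0 + 2 * ∑ k ∈ Finset.Icc 1 K, ∑ j ∈ II T, g (SS k j) := by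
    rw [Finset.sum_add_distrib, Finset.sum_const, nsmul_eq_mul, card_II, ← Finset.mul_sum,
      Finset.sum_comm]
  have h2 : |∑ k ∈ Finset.Icc 1 K, ∑ j ∈ (II T).filter (fun j => j + k ≤ NZ T), g (xx T (j + k) j) -
      ∑ k ∈ Finset.Icc 1 K, ∑ j ∈ II T, g (SS k j)| ≤ ε / 8 * nT T := by
    rw [← Finset.sum_sub_distrib]
    refine (abs_sum_le' _ _ _ hn1).trans ?_
    rw [Finset.sum_const, Nat.card_Icc, nsmul_eq_mul, Nat.add_sub_cancel]
    have : (K : ℝ) * (ε / (8 * (K + 1)) * nT T) = (K / (K + 1)) * (ε / 8 * nT T) := by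
      field_simp
    rw [this]
    have h3 : (K : ℝ) / (K + 1) ≤ 1 := by
      rw [div_le_one (by positivity)]; linarith
    calc (K : ℝ) / (K + 1) * (ε / 8 * nT T) ≤ 1 * (ε / 8 * nT T) :=
          mul_le_mul_of_nonneg_right h3 (by positivity)
      _ = ε / 8 * nT T := one_mul _
  have h3 : |∑ p ∈ ((II T) ×ˢ (II T)).filter (fun p : ℕ × ℕ => p.2 + K < p.1),
      g (xx T p.1 p.2)| ≤ ε / 8 * nT T := (Finset.abs_sum_le_sum_abs _ _).trans h1
  have h4 : |∑ i ∈ II T, ∑ j ∈ II T, g (xx T i j) - L * nT T| ≤ ε / 4 * nT T := by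
    have e4 : ∑ i ∈ II T, ∑ j ∈ II T, g (xx T i j) - L * nT T =
        ((∑ i ∈ Finset.Ioc 0 (NZ T), ∑ j ∈ Finset.Ioc 0 (NZ T), g (xx T i j)) / nT T - L) *
          nT T := by
      unfold Pool.Agent.Y749.AH.II
      field_simp
    rw [e4, abs_mul, abs_of_pos hn]
    exact mul_le_mul_of_nonneg_right hl hn.le
  rw [e3]
  rw [e1, e2] at h4
  rw [abs_le] at *
  constructor <;> linarith [h2.1, h2.2, h3.1, h3.2, h4.1, h4.2]

/-- the size of the `N`-th ordinate -/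
lemma N_nT {δ : ℝ} (hδ : 0 < δ) (hδ1 : δ < 1) : ∀ᶠ N : ℕ in atTop,
    (1 - δ) ^ 3 * nT (ord N) ≤ N ∧ (N : ℝ) ≤ NZ (ord N) ∧
      (NZ (ord N) : ℝ) ≤ (1 + δ) * nT (ord N) := by
  have h0 := Pool.Agent.Y743.LR.ord_tendsto
  have hκT : Tendsto (fun T : ℝ => (1 - δ) * T) atTop atTop :=
    tendsto_id.const_mul_atTop (by linarith)
  filter_upwards [h0.eventually (N_asymp hδ), h0.eventually (hκT.eventually (N_asymp hδ)),
    h0.eventually_ge_atTop 10, eventually_ge_atTop 1,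
    (Real.tendsto_log_atTop.comp h0).eventually_ge_atTop (-Real.log (1 - δ) / δ)]
    with N h1 h2 h3 h4 h5
  have hd : 0 < 1 - δ := by linarith
  have g1 : N ≤ NZ (ord N) := (SG.ord_le_iff h4 _).1 le_rfl
  have g2 : NZ ((1 - δ) * ord N) < N := by
    by_contra hcon
    push Not at hcon
    have := (SG.ord_le_iff h4 _).2 hcon
    nlinarith
  have g3 : (NZ ((1 - δ) * ord N) : ℝ) ≤ N := by exact_mod_cast g2.le
  simp only [Function.comp] at h5
  rw [div_le_iff₀ hδ] at h5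
  have hL := one_lt_log (show 3 ≤ ord N by linarith)
  have g4 : (1 - δ) * Real.log (ord N) ≤ Real.log ((1 - δ) * ord N) := by
    rw [Real.log_mul hd.ne' (by linarith)]
    linarith
  have g5 : (1 - δ) ^ 2 * nT (ord N) ≤ nT ((1 - δ) * ord N) := by
    unfold nT
    rw [mul_div_assoc']
    apply div_le_div_of_nonneg_right _ (by positivity)
    have : (1 - δ) ^ 2 * (ord N * Real.log (ord N)) =
        (1 - δ) * ord N * ((1 - δ) * Real.log (ord N)) := by ring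
    rw [this]
    exact mul_le_mul_of_nonneg_left g4 (by nlinarith)
  refine ⟨?_, by exact_mod_cast g1, h1.2⟩
  have g6 := mul_le_mul_of_nonneg_left g5 hd.le
  have : (1 - δ) * ((1 - δ) ^ 2 * nT (ord N)) = (1 - δ) ^ 3 * nT (ord N) := by ring
  linarith [h2.1]

/-- **from pairs of zeros to averages over the index** -/
theorem pairN (hRH : RiemannHypothesis) {g : ℝ → ℝ} {B Lp L : ℝ} (he : ∀ x, g (-x) = g x)
    (hB : ∀ x, |g x| ≤ B / (1 + x ^ 2)) (hLp : ∀ x y, |g x - g y| ≤ Lp * |x - y|)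
    (hL : Tendsto (fun T => ∫ x, g x ∂(Mp T)) atTop (𝓝 L)) {ε : ℝ} (hε : 0 < ε) :
    ∃ K0 : ℕ, ∀ K : ℕ, K0 ≤ K → ∀ᶠ N : ℕ in atTop,
      |Av (fun n => g 0 + 2 * ∑ k ∈ Finset.Icc 1 K, g (SS k n)) N - L| ≤ ε := by
  have hB0 : 0 ≤ B := by
    have := (abs_nonneg _).trans (hB 0)
    simpa using this
  have hB1 : ∀ x, |g x| ≤ B := fun x => (hB x).trans (div_le_self hB0 (by nlinarith [sq_nonneg x]))
  obtain ⟨K0, hK0⟩ := pairT hRH he hB hLp hL (show 0 < ε / 4 by positivity)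
  refine ⟨K0, fun K hK => ?_⟩
  obtain ⟨A, hA⟩ : ∃ A : ℝ, A = B * (1 + 2 * K) + |L| + 1 := ⟨_, rfl⟩
  have hA0 : 0 < A := by rw [hA]; positivity
  obtain ⟨δ, hδ⟩ : ∃ δ : ℝ, δ = min (1 / 8) (ε / (40 * A)) := ⟨_, rfl⟩
  have hδ0 : 0 < δ := by rw [hδ]; exact lt_min (by norm_num) (by positivity)
  have hδ1 : δ ≤ 1 / 8 := by rw [hδ]; exact min_le_left _ _
  have hδ2 : δ * A ≤ ε / 40 := by
    have : δ ≤ ε / (40 * A) := by rw [hδ]; exact min_le_right _ _
    rw [le_div_iff₀ (by positivity)] at this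
    linarith
  have h0 := Pool.Agent.Y743.LR.ord_tendsto
  filter_upwards [h0.eventually (hK0 K hK), N_nT hδ0 (by linarith), h0.eventually_ge_atTop 10,
    eventually_ge_atTop 1] with N h1 h2 h3 h4
  have hn := nT_pos h3
  have hN0 : (0 : ℝ) < N := by exact_mod_cast h4
  obtain ⟨f, hf⟩ : ∃ f : ℕ → ℝ, f = fun n => g 0 + 2 * ∑ k ∈ Finset.Icc 1 K, g (SS k n) := ⟨_, rfl⟩
  have hfb : ∀ n, |f n| ≤ B * (1 + 2 * K) := by
    intro n
    rw [hf]
    simp only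
    refine (abs_add_le _ _).trans ?_
    rw [abs_mul, abs_of_pos (by norm_num : (0 : ℝ) < 2)]
    have h5 : |∑ k ∈ Finset.Icc 1 K, g (SS k n)| ≤ K * B := by
      refine (abs_sum_le' _ _ (fun _ => B) fun k _ => hB1 _).trans (le_of_eq ?_)
      rw [Finset.sum_const, Nat.card_Icc, nsmul_eq_mul, Nat.add_sub_cancel]
    linarith [hB1 0]
  rw [← hf]
  have e1 : ∑ n ∈ II (ord N), (g 0 + 2 * ∑ k ∈ Finset.Icc 1 K, g (SS k n)) =
      ∑ n ∈ Finset.Icc 1 N, f n + ∑ n ∈ Finset.Ioc N (NZ (ord N)), f n := by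
    have e2 : Finset.Icc 1 N = Finset.Ioc 0 N := by ext x; simp; omega
    rw [e2, Finset.sum_Ioc_consecutive f (Nat.zero_le _) (by exact_mod_cast h2.2.1), hf]
    rfl
  rw [e1] at h1
  have h5 : |∑ n ∈ Finset.Ioc N (NZ (ord N)), f n| ≤ ((NZ (ord N) : ℝ) - N) * (B * (1 + 2 * K)) := by
    refine (abs_sum_le' _ _ (fun _ => B * (1 + 2 * K)) fun k _ => hfb _).trans (le_of_eq ?_)
    rw [Finset.sum_const, Nat.card_Ioc, nsmul_eq_mul, Nat.cast_sub (by exact_mod_cast h2.2.1)]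
  -- all sizes compared with `N`
  obtain ⟨n, hnn⟩ : ∃ n : ℝ, n = nT (ord N) := ⟨_, rfl⟩
  rw [← hnn] at h1 h2 hn
  have hcube : 1 - 3 * δ ≤ (1 - δ) ^ 3 := by nlinarith [sq_nonneg δ, mul_pos hδ0 hδ0]
  have k1 : (1 - 3 * δ) * n ≤ N := (mul_le_mul_of_nonneg_right hcube hn.le).trans h2.1
  have k2 : (N : ℝ) ≤ (1 + δ) * n := h2.2.1.trans h2.2.2
  have k3 : n ≤ 2 * N := by nlinarith
  have k4 : (NZ (ord N) : ℝ) - N ≤ 4 * δ * n := by linarith [h2.2.2]
  have k5 : |(N : ℝ) - n| ≤ 3 * δ * n := by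
    rw [abs_le]
    constructor <;> nlinarith
  have k6 : ((NZ (ord N) : ℝ) - N) * (B * (1 + 2 * K)) ≤ 8 * (δ * A) * N := by
    have g1 : B * (1 + 2 * K) ≤ A := by rw [hA]; linarith [abs_nonneg L]
    have g2 : (0 : ℝ) ≤ (NZ (ord N) : ℝ) - N := by linarith [h2.2.1]
    calc ((NZ (ord N) : ℝ) - N) * (B * (1 + 2 * K)) ≤ (4 * δ * n) * A :=
          mul_le_mul k4 g1 (by positivity) (by positivity)
      _ ≤ (4 * δ * (2 * N)) * A := by gcongr
      _ = 8 * (δ * A) * N := by ring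
  have k7 : |L * n - L * N| ≤ 6 * (δ * A) * N := by
    rw [← mul_sub, abs_mul, abs_sub_comm]
    have g1 : |L| ≤ A := by rw [hA]; linarith [show 0 ≤ B * (1 + 2 * (K : ℝ)) by positivity]
    calc |L| * |(N : ℝ) - n| ≤ A * (3 * δ * n) :=
          mul_le_mul g1 k5 (abs_nonneg _) hA0.le
      _ ≤ A * (3 * δ * (2 * N)) := by gcongr
      _ = 6 * (δ * A) * N := by ring
  have k8 : |∑ n ∈ Finset.Icc 1 N, f n - L * N| ≤ ε * N := by
    have g1 : ε / 4 * n ≤ ε / 2 * N := by nlinarith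
    have g2 : 14 * (δ * A) * N ≤ 14 * (ε / 40) * N := by gcongr
    have g3 := h5.trans k6
    have g4 : 0 < ε * N := by positivity
    rw [abs_le] at *
    constructor <;> linarith [h1.1, h1.2, g3.1, g3.2, k7.1, k7.2]
  have e3 : Av f N - L = (∑ n ∈ Finset.Icc 1 N, f n - L * N) / N := by
    unfold Av
    field_simp
  rw [e3, abs_div, abs_of_pos hN0, div_le_iff₀ hN0]
  exact k8

end Pool.Agent.K6.H57.PN
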