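import Pool.Agent.K6.H57.PN.Asy

/-! # The periodogram at low frequencies -/

set_option autoImplicit false

open MeasureTheory Set Filter Topology

namespace Pool.Agent.K6.H57.PN

open Pool.Agent.Y749.Rig (fl)
open Pool.Agent.R846.NC (cov LogGrowth sum_rule log_sq_small growth_bound)

lemma reindexN (N : ℕ) (f : ℕ → ℕ → ℝ) (hf : ∀ i j, f i j = f j i) :
    ∑ i ∈ Finset.Icc 1 N, ∑ j ∈ Finset.Icc 1 N, f i j = ∑ i ∈ Finset.Icc 1 N, f i i +
      2 * ∑ k ∈ Finset.Icc 1 N, ∑ j ∈ (Finset.Icc 1 N).filter (fun j => j + k ≤ N), f (j + k) j := by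
  classical
  have h1 : ∑ k ∈ Finset.Icc 1 N, ∑ j ∈ (Finset.Icc 1 N).filter (fun j => j + k ≤ N), f (j + k) j =
      ∑ i ∈ Finset.Icc 1 N, ∑ j ∈ (Finset.Icc 1 N).filter (fun j => j < i), f i j := by
    rw [Finset.sum_sigma', Finset.sum_sigma']
    refine Finset.sum_bij' (i := fun q _ => (⟨q.2 + q.1, q.2⟩ : (_ : ℕ) × ℕ))
      (j := fun p _ => (⟨p.1 - p.2, p.2⟩ : (_ : ℕ) × ℕ)) ?_ ?_ ?_ ?_ ?_
    · intro q hq
      simp only [Finset.mem_sigma, Finset.mem_Icc, Finset.mem_filter] at hq ⊢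
      omega
    · intro p hp
      simp only [Finset.mem_sigma, Finset.mem_Icc, Finset.mem_filter] at hp ⊢
      omega
    · intro q hq
      simp only
      ext
      · simp
      · rfl
    · intro p hp
      simp only [Finset.mem_sigma, Finset.mem_Icc, Finset.mem_filter] at hp
      ext
      · simp only; omega
      · rfl
    · intro q hq
      rfl
  have h2 : ∑ i ∈ Finset.Icc 1 N, ∑ j ∈ (Finset.Icc 1 N).filter (fun j => i < j), f i j =
      ∑ i ∈ Finset.Icc 1 N, ∑ j ∈ (Finset.Icc 1 N).filter (fun j => j < i), f i j := by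
    simp_rw [Finset.sum_filter]
    rw [Finset.sum_comm]
    refine Finset.sum_congr rfl fun i _ => Finset.sum_congr rfl fun j _ => ?_
    rw [hf i j]
  have h3 : ∀ i ∈ Finset.Icc 1 N, ∑ j ∈ Finset.Icc 1 N, f i j = f i i +
      ∑ j ∈ (Finset.Icc 1 N).filter (fun j => j < i), f i j +
      ∑ j ∈ (Finset.Icc 1 N).filter (fun j => i < j), f i j := by
    intro i hi
    simp_rw [Finset.sum_filter]
    have e : f i i = ∑ j ∈ Finset.Icc 1 N, if j = i then f i j else 0 := by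
      rw [Finset.sum_ite_eq' , if_pos hi]
    rw [e, ← Finset.sum_add_distrib, ← Finset.sum_add_distrib]
    refine Finset.sum_congr rfl fun j _ => ?_
    rcases lt_trichotomy j i with h | h | h
    · rw [if_neg h.ne, if_pos h, if_neg (by omega)]; ring
    · rw [if_pos h, if_neg (by omega), if_neg (by omega)]; ring
    · rw [if_neg h.ne', if_neg (by omega), if_pos h]; ring
  rw [Finset.sum_congr rfl h3, Finset.sum_add_distrib, Finset.sum_add_distrib, h2, h1]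
  ring

/-- the quadratic form -/
noncomputable def QF (a : ℕ → ℝ) (Φ : ℝ → ℝ) (h : ℝ) (N : ℕ) : ℝ :=
  (1 / N : ℝ) * ∑ i ∈ Finset.Icc 1 N, ∑ j ∈ Finset.Icc 1 N, a i * a j * gs h Φ ((i : ℝ) - j)

/-- the quadratic form and the covariances -/
theorem qf_cov {a : ℕ → ℝ} (hg : LogGrowth a) (hM : Mom a) {B : ℝ} {Φ : ℝ → ℝ}
    (hΦ : Tf B Φ) : ∃ Ct : ℝ, 0 ≤ Ct ∧ ∀ m : ℕ, 2 ≤ m →
    ∀ h : ℝ, (m : ℝ) ^ 2 / 4 ≤ h → h ≤ (m : ℝ) ^ 2 → ∀ᶠ N : ℕ in atTop,
    |QF a Φ h N - (cov a 0 N * gs h Φ 0 + 2 * ∑ k ∈ Finset.Icc 1 (m ^ 3), cov a k N * gs h Φ k)| ≤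
      Ct / m := by
  classical
  obtain ⟨D, hD0, hD⟩ := dec6 hΦ
  obtain ⟨C2, hC20, hC2⟩ := hM 2
  obtain ⟨C, hC, hgr⟩ := hg
  refine ⟨2 * (C2 * D) + 2, by positivity, fun m hm2' h hh1 hh2 => ?_⟩
  have hmr : (2 : ℝ) ≤ m := by exact_mod_cast hm2'
  have hm0 : (0 : ℝ) < m := by linarith
  have hhpos : 0 < h := by nlinarith
  obtain ⟨K1, hK1⟩ : ∃ K1 : ℕ, K1 = m ^ 3 := ⟨_, rfl⟩
  have hK1r : (K1 : ℝ) = (m : ℝ) ^ 3 := by rw [hK1]; push_cast; rfl
  have hK11 : 1 ≤ K1 := by rw [hK1]; exact Nat.one_le_pow _ _ (by omega)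
  rw [← hK1]
  obtain ⟨τ, hτ⟩ : ∃ τ : ℝ, τ = 1 / (m * (K1 ^ 2 * (D * h))) := ⟨_, rfl⟩
  have hK1p : (0 : ℝ) < K1 := by exact_mod_cast hK11
  have hτ0 : 0 < τ := by rw [hτ]; positivity
  filter_upwards [hC2 1 le_rfl, log_sq_small C K1 τ hτ0, eventually_ge_atTop (K1 + 1)]
    with N e1 e2 hN
  have hN1 : 1 ≤ N := by omega
  have hN0 : (0 : ℝ) < N := by exact_mod_cast hN1
  have hDh := hD h hhpos
  -- the second moment
  have hS2 : ∑ n ∈ Finset.Icc 1 N, a n ^ 2 ≤ C2 * N := by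
    have e3 : ∀ n, |dd a 1 n| ^ 2 = a n ^ 2 := by
      intro n
      unfold dd
      rw [Finset.sum_range_one, add_zero, sq_abs]
    simp only [e3] at e1
    unfold Av at e1
    rw [Nat.cast_one, Real.log_one, add_zero, one_pow, mul_one, one_div, inv_mul_le_iff₀ hN0] at e1
    linarith
  have hgr' := growth_bound hC hgr N K1
  obtain ⟨M, hMd⟩ : ∃ M : ℝ, M = C * (1 + Real.log ((N + 2 * K1 : ℕ) : ℝ)) := ⟨_, rfl⟩
  rw [← hMd] at hgr' e2
  have hM0 : 0 ≤ M := (abs_nonneg _).trans (hgr' 1 le_rfl (by omega))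
  -- the sums at lag `k`
  obtain ⟨R, hR⟩ : ∃ R : ℕ → ℝ, R = fun k => ∑ j ∈ (Finset.Icc 1 N).filter (fun j => j + k ≤ N),
    a (j + k) * a j := ⟨_, rfl⟩
  have hexp : ∑ i ∈ Finset.Icc 1 N, ∑ j ∈ Finset.Icc 1 N, a i * a j * gs h Φ ((i : ℝ) - j) =
      (∑ i ∈ Finset.Icc 1 N, a i ^ 2) * gs h Φ 0 + 2 * ∑ k ∈ Finset.Icc 1 N, R k * gs h Φ k := by
    rw [reindexN N (fun i j => a i * a j * gs h Φ ((i : ℝ) - j)) (by
      intro i j
      have : (j : ℝ) - i = -((i : ℝ) - j) := by ring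
      rw [this, gs_even]
      ring)]
    congr 1
    · rw [Finset.sum_mul]
      refine Finset.sum_congr rfl fun i _ => ?_
      rw [sub_self]; ring
    · congr 1
      refine Finset.sum_congr rfl fun k _ => ?_
      rw [hR, Finset.sum_mul]
      refine Finset.sum_congr rfl fun j _ => ?_
      congr 2
      push_cast
      ring
  have hRle : ∀ k, |R k| ≤ C2 * N := by
    intro k
    rw [hR]
    simp only
    have g1 : ∀ j ∈ (Finset.Icc 1 N).filter (fun j => j + k ≤ N), |a (j + k) * a j| ≤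
        a (j + k) ^ 2 / 2 + a j ^ 2 / 2 := by
      intro j _
      rw [abs_mul]
      nlinarith [sq_nonneg (|a (j + k)| - |a j|), sq_abs (a (j + k)), sq_abs (a j)]
    refine (abs_sum_le' _ _ _ g1).trans ?_
    rw [Finset.sum_add_distrib, ← Finset.sum_div, ← Finset.sum_div]
    have g2 : ∑ j ∈ (Finset.Icc 1 N).filter (fun j => j + k ≤ N), a j ^ 2 ≤
        ∑ n ∈ Finset.Icc 1 N, a n ^ 2 :=
      Finset.sum_le_sum_of_subset_of_nonneg (Finset.filter_subset _ _) fun _ _ _ => sq_nonneg _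
    have g3 : ∑ j ∈ (Finset.Icc 1 N).filter (fun j => j + k ≤ N), a (j + k) ^ 2 ≤
        ∑ n ∈ Finset.Icc 1 N, a n ^ 2 := by
      rw [← Finset.sum_image (f := fun n => a n ^ 2) (g := fun j => j + k)
        (fun x _ y _ h => Nat.add_right_cancel h)]
      refine Finset.sum_le_sum_of_subset_of_nonneg ?_ fun _ _ _ => sq_nonneg _
      intro n hn
      rw [Finset.mem_image] at hn
      obtain ⟨j, hj, rfl⟩ := hn
      rw [Finset.mem_filter, Finset.mem_Icc] at hj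
      rw [Finset.mem_Icc]
      omega
    linarith
  have hRcov : ∀ k, 1 ≤ k → k ≤ K1 → |R k - N * cov a k N| ≤ K1 * M ^ 2 := by
    intro k h1 h2
    have g1 : N * cov a k N = ∑ n ∈ Finset.Icc 1 N, a n * a (n + k) := by
      unfold Pool.Agent.R846.NC.cov
      field_simp
    have g2 : R k - N * cov a k N =
        -∑ j ∈ (Finset.Icc 1 N).filter (fun j => ¬ j + k ≤ N), a j * a (j + k) := by
      rw [g1, ← Finset.sum_filter_add_sum_filter_not (Finset.Icc 1 N) (fun j => j + k ≤ N)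
        (fun n => a n * a (n + k)), hR]
      simp only
      rw [Finset.sum_congr rfl fun j _ => mul_comm (a (j + k)) (a j)]
      ring
    rw [g2, abs_neg]
    have g3 : ∀ j ∈ (Finset.Icc 1 N).filter (fun j => ¬ j + k ≤ N), |a j * a (j + k)| ≤ M ^ 2 := by
      intro j hj
      rw [Finset.mem_filter, Finset.mem_Icc] at hj
      rw [abs_mul, sq]
      exact mul_le_mul (hgr' j hj.1.1 (by omega)) (hgr' (j + k) (by omega) (by omega))
        (abs_nonneg _) hM0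
    refine (abs_sum_le' _ _ (fun _ => M ^ 2) g3).trans ?_
    rw [Finset.sum_const, nsmul_eq_mul]
    refine mul_le_mul_of_nonneg_right ?_ (sq_nonneg _)
    have g4 : (Finset.Icc 1 N).filter (fun j => ¬ j + k ≤ N) ⊆ Finset.Ioc (N - K1) N := by
      intro j hj
      rw [Finset.mem_filter, Finset.mem_Icc] at hj
      rw [Finset.mem_Ioc]
      omega
    have g5 := Finset.card_le_card g4
    rw [Nat.card_Ioc] at g5
    have g6 : ((Finset.Icc 1 N).filter (fun j => ¬ j + k ≤ N)).card ≤ K1 := by omega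
    exact_mod_cast g6
  have hc0 : N * cov a 0 N = ∑ i ∈ Finset.Icc 1 N, a i ^ 2 := by
    unfold Pool.Agent.R846.NC.cov
    rw [← mul_assoc, mul_one_div_cancel hN0.ne', one_mul]
    refine Finset.sum_congr rfl fun n _ => ?_
    rw [add_zero]; ring
  have hsplit : ∑ k ∈ Finset.Icc 1 N, R k * gs h Φ k = ∑ k ∈ Finset.Icc 1 K1, R k * gs h Φ k +
      ∑ k ∈ Finset.Ioc K1 N, R k * gs h Φ k := by
    have q1 : Finset.Icc 1 N = Finset.Ioc 0 N := by ext x; simp; omega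
    have q2 : Finset.Icc 1 K1 = Finset.Ioc 0 K1 := by ext x; simp; omega
    rw [q1, q2]
    exact (Finset.sum_Ioc_consecutive _ (Nat.zero_le _) (by omega)).symm
  have hmain : QF a Φ h N - (cov a 0 N * gs h Φ 0 +
      2 * ∑ k ∈ Finset.Icc 1 K1, cov a k N * gs h Φ k) =
      (2 / N : ℝ) * (∑ k ∈ Finset.Icc 1 K1, (R k - N * cov a k N) * gs h Φ k +
        ∑ k ∈ Finset.Ioc K1 N, R k * gs h Φ k) := by
    unfold QF
    rw [hexp, ← hc0, hsplit]
    have : ∑ k ∈ Finset.Icc 1 K1, (R k - N * cov a k N) * gs h Φ k =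
        ∑ k ∈ Finset.Icc 1 K1, R k * gs h Φ k - N * ∑ k ∈ Finset.Icc 1 K1, cov a k N * gs h Φ k := by
      rw [Finset.mul_sum, ← Finset.sum_sub_distrib]
      refine Finset.sum_congr rfl fun k _ => ?_
      ring
    rw [this]
    field_simp
    ring
  have b1 : |∑ k ∈ Finset.Icc 1 K1, (R k - N * cov a k N) * gs h Φ k| ≤
      K1 * (K1 * M ^ 2 * (D * h)) := by
    refine (abs_sum_le' _ _ (fun _ => K1 * M ^ 2 * (D * h)) fun k hk => ?_).trans (le_of_eq ?_)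
    · rw [Finset.mem_Icc] at hk
      rw [abs_mul]
      exact mul_le_mul (hRcov k hk.1 hk.2) (hDh k).1 (abs_nonneg _) (by positivity)
    · rw [Finset.sum_const, Nat.card_Icc, nsmul_eq_mul, Nat.add_sub_cancel]
  have b2 : |∑ k ∈ Finset.Ioc K1 N, R k * gs h Φ k| ≤ C2 * N * (D / m) := by
    refine (abs_sum_le' _ _ (fun k : ℕ => C2 * N * |gs h Φ k|) fun k hk => ?_).trans ?_
    · rw [abs_mul]
      exact mul_le_mul_of_nonneg_right (hRle k) (abs_nonneg _)
    · rw [← Finset.mul_sum]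
      refine mul_le_mul_of_nonneg_left ?_ (by positivity)
      refine (gs_tail (fun x => (hDh x).2) K1 N hK11).trans ?_
      rw [hK1r]
      have hp7 : h ^ 7 ≤ (m : ℝ) ^ 14 := by
        calc h ^ 7 ≤ ((m : ℝ) ^ 2) ^ 7 := pow_le_pow_left₀ hhpos.le hh2 7
          _ = (m : ℝ) ^ 14 := by ring
      have : D * h ^ 7 / ((m : ℝ) ^ 3) ^ 5 ≤ D * (m : ℝ) ^ 14 / ((m : ℝ) ^ 3) ^ 5 := by gcongr
      refine this.trans (le_of_eq ?_)
      field_simp
  have b3 : K1 * (K1 * M ^ 2 * (D * h)) ≤ N / m := by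
    have g1 : K1 * (K1 * M ^ 2 * (D * h)) ≤ K1 * (K1 * (τ * N) * (D * h)) := by gcongr
    refine g1.trans (le_of_eq ?_)
    rw [hτ]
    field_simp
  rw [hmain, abs_mul, abs_of_pos (by positivity : (0 : ℝ) < 2 / N)]
  have b4 := (abs_add_le (∑ k ∈ Finset.Icc 1 K1, (R k - N * cov a k N) * gs h Φ k)
    (∑ k ∈ Finset.Ioc K1 N, R k * gs h Φ k)).trans (add_le_add (b1.trans b3) b2)
  refine (mul_le_mul_of_nonneg_left b4 (by positivity)).trans (le_of_eq ?_)
  field_simp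
  ring

lemma omega_small (Ct ε : ℝ) (hε : 0 < ε) : ∀ᶠ m : ℕ in atTop,
    Ct * (1 + Real.log ((m ^ 3 + 1 : ℕ) : ℝ)) ^ 3 / m ≤ ε := by
  have h1 : Tendsto (fun x : ℝ => (2 + 3 * Real.log x) ^ 3 / x) atTop (𝓝 0) := by
    have h2 : Tendsto (fun x : ℝ => 1 / x) atTop (𝓝 0) := by
      simpa using tendsto_inv_atTop_zero
    have h3 : ∀ p : ℕ, Tendsto (fun x : ℝ => Real.log x ^ p / x) atTop (𝓝 0) := by
      intro p
      have := Real.tendsto_pow_log_div_mul_add_atTop 1 0 p one_ne_zero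
      simpa using this
    have h5 := (((h2.const_mul 8).add ((h3 1).const_mul 36)).add ((h3 2).const_mul 54)).add
      ((h3 3).const_mul 27)
    simp only [mul_zero, add_zero] at h5
    refine h5.congr fun x => ?_
    ring
  have h2 := (h1.comp (tendsto_natCast_atTop_atTop (R := ℝ))).const_mul |Ct|
  rw [mul_zero] at h2
  have h3 := h2.eventually_le_const hε
  filter_upwards [h3, eventually_ge_atTop 2] with m hm hm2
  have hmr : (2 : ℝ) ≤ m := by exact_mod_cast hm2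
  have hm0 : (0 : ℝ) < m := by linarith
  simp only [Function.comp] at hm
  refine le_trans ?_ hm
  have hlog : Real.log ((m ^ 3 + 1 : ℕ) : ℝ) ≤ 1 + 3 * Real.log m := by
    have h4 : ((m ^ 3 + 1 : ℕ) : ℝ) ≤ Real.exp 1 * (m : ℝ) ^ 3 := by
      push_cast
      have := Real.exp_one_gt_d9
      have h5 : (1 : ℝ) ≤ (m : ℝ) ^ 3 := one_le_pow₀ (by linarith)
      nlinarith
    refine (Real.log_le_log (by positivity) h4).trans (le_of_eq ?_)
    rw [Real.log_mul (Real.exp_pos 1).ne' (by positivity), Real.log_exp, Real.log_pow]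
    norm_num
  have h0 : 0 ≤ Real.log ((m ^ 3 + 1 : ℕ) : ℝ) := Real.log_natCast_nonneg _
  rw [mul_div_assoc]
  refine mul_le_mul (le_abs_self _) ?_ (by positivity) (abs_nonneg _)
  exact div_le_div_of_nonneg_right (pow_le_pow_left₀ (by linarith) (by linarith) 3) hm0.le

/-- **the quadratic form is asymptotically the first moment of the test function** -/
theorem qf_lim {a : ℕ → ℝ} (hg : LogGrowth a) (hm : Mean a) (hM : Mom a) {B : ℝ} {Φ : ℝ → ℝ}
    (hΦ : Tf B Φ) (hP : ∀ h : ℝ, B < h → Pr a Φ h) {ε : ℝ} (hε : 0 < ε) :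
    ∀ᶠ h : ℝ in atTop, ∀ᶠ N : ℕ in atTop, |QF a Φ h N - J Φ| ≤ ε := by
  obtain ⟨C1, hC1, h1⟩ := cov_sum hg hm hM hΦ hP
  obtain ⟨C2, hC2, h2⟩ := qf_cov hg hM hΦ
  have hev := (omega_small (C1 + C2) ε hε).and (eventually_ge_atTop 2)
  have hcl : Tendsto (fun h : ℝ => ⌈Real.sqrt h⌉₊) atTop atTop :=
    tendsto_nat_ceil_atTop.comp Real.tendsto_sqrt_atTop
  filter_upwards [hcl.eventually hev, eventually_gt_atTop B, eventually_ge_atTop 4] with h hm' hB h4
  obtain ⟨m, hmd⟩ : ∃ m : ℕ, m = ⌈Real.sqrt h⌉₊ := ⟨_, rfl⟩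
  rw [← hmd] at hm'
  have hs0 : 0 ≤ Real.sqrt h := Real.sqrt_nonneg h
  have hsq : Real.sqrt h ^ 2 = h := Real.sq_sqrt (by linarith)
  have hs2 : 2 ≤ Real.sqrt h := by
    rw [Real.le_sqrt (by norm_num) (by linarith)]
    linarith
  have hle : Real.sqrt h ≤ m := by rw [hmd]; exact Nat.le_ceil _
  have hlt : (m : ℝ) < Real.sqrt h + 1 := by rw [hmd]; exact Nat.ceil_lt_add_one hs0
  have k1 : (m : ℝ) ^ 2 / 4 ≤ h := by nlinarith
  have k2 : h ≤ (m : ℝ) ^ 2 := by nlinarith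
  filter_upwards [h1 m hm'.2 h k1 k2 hB, h2 m hm'.2 h k1 k2] with N g1 g2
  have hm0 : (0 : ℝ) < m := by
    have := hm'.2
    have : 0 < m := by omega
    exact_mod_cast this
  have hl : 1 ≤ (1 + Real.log ((m ^ 3 + 1 : ℕ) : ℝ)) ^ 3 := by
    apply one_le_pow₀
    linarith [Real.log_natCast_nonneg (m ^ 3 + 1)]
  have g3 : C2 / m ≤ C2 * (1 + Real.log ((m ^ 3 + 1 : ℕ) : ℝ)) ^ 3 / m := by
    gcongr
    nlinarith
  have g4 : (C1 + C2) * (1 + Real.log ((m ^ 3 + 1 : ℕ) : ℝ)) ^ 3 / m =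
      C1 * (1 + Real.log ((m ^ 3 + 1 : ℕ) : ℝ)) ^ 3 / m +
        C2 * (1 + Real.log ((m ^ 3 + 1 : ℕ) : ℝ)) ^ 3 / m := by ring
  have g5 := hm'.1
  rw [g4] at g5
  rw [abs_le] at *
  constructor <;> linarith [g1.1, g1.2, g2.1, g2.2]

end Pool.Agent.K6.H57.PN
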