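import Pool.Agent.K6.H57.PN.Ix2
import Pool.Agent.K6.H57.PN.Per
import Pool.Agent.Y749.Rig.RHb
import Pool.Agent.R846.NC.Zeta
import Pool.Agent.R320.JL.Mom

/-! # The covariances of the unfolded gaps -/

set_option autoImplicit false

open MeasureTheory Set Filter Topology

namespace Pool.Agent.K6.H57.PN

open Pool.Agent.Y749.Rig (Mp nT fl cc fl_bound fl_lip fl_even test_limRH)
open Pool.Agent.R320.CL (SS dl)
open Pool.Agent.R846.NC (LogGrowth SmallVar log_sq_small growth_bound shift_bound)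
open SP (RHs)

/-- the centred unfolded gaps -/
noncomputable def ac (n : ℕ) : ℝ := dl n - 1

lemma ac_eq : ac = fun n => Pool.Agent.Y743.LR.dl n - 1 := by
  funext n
  unfold ac Pool.Agent.R320.CL.dl Pool.Agent.Y743.LR.dl
  ring

lemma ac_growth (hRH : RHs) : LogGrowth ac := by
  rw [ac_eq]
  exact Pool.Agent.R846.NC.logGrowth hRH

lemma dd_ac (k n : ℕ) : (k : ℝ) + dd ac k n = SS k n := by
  unfold dd ac Pool.Agent.R320.CL.SS
  rw [Finset.sum_sub_distrib, Finset.sum_const, Finset.card_range, nsmul_eq_mul]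
  ring

lemma ac_mean (hRH : RHs) : Mean ac := by
  intro k ε hε
  obtain ⟨V, hV⟩ := Pool.Agent.R846.NC.smallVar hRH
  rw [← ac_eq] at hV
  have hg := ac_growth hRH
  have h0 := Pool.Agent.R846.NC.mean_zero hg hV (ε / (2 * (k + 1))) (by positivity)
  obtain ⟨C, hC, hgr⟩ := hg
  filter_upwards [h0, log_sq_small C k (ε / (8 * (k + 1) ^ 2)) (by positivity),
    eventually_ge_atTop 1, eventually_ge_atTop ⌈8 * ((k : ℝ) + 1) ^ 2 / ε⌉₊] with N h1 h2 hN1 hN2
  have hN0 : (0 : ℝ) < N := by exact_mod_cast hN1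
  have hgr' := growth_bound hC hgr N k
  obtain ⟨M, hMd⟩ : ∃ M : ℝ, M = C * (1 + Real.log ((N + 2 * k : ℕ) : ℝ)) := ⟨_, rfl⟩
  rw [← hMd] at hgr' h2
  have hM0 : 0 ≤ M := (abs_nonneg _).trans (hgr' 1 le_rfl (by omega))
  have hMN : M ≤ ε / (4 * (k + 1) ^ 2) * N := by
    have g1 : M ≤ M ^ 2 + 1 := by nlinarith
    have g2 : 1 ≤ ε / (8 * (k + 1) ^ 2) * N := by
      have : 8 * ((k : ℝ) + 1) ^ 2 / ε ≤ N := (Nat.le_ceil _).trans (by exact_mod_cast hN2)
      rw [div_le_iff₀ hε] at this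
      rw [div_mul_eq_mul_div, le_div_iff₀ (by positivity)]
      linarith
    have g3 : ε / (4 * (k + 1) ^ 2) * N = 2 * (ε / (8 * (k + 1) ^ 2) * N) := by
      field_simp; ring
    linarith
  unfold Av
  rw [abs_mul, abs_of_pos (by positivity : (0 : ℝ) < 1 / N), one_div, inv_mul_le_iff₀ hN0]
  unfold dd
  rw [Finset.sum_comm]
  have key : ∀ i ∈ Finset.range k, |∑ n ∈ Finset.Icc 1 N, ac (n + i)| ≤
      ε / (2 * (k + 1)) * N + 2 * k * M := by
    intro i hi
    rw [Finset.mem_range] at hi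
    have g1 := shift_bound ac N i M (fun n a b => hgr' n a (by omega))
    have g2 : 2 * (i : ℝ) * M ≤ 2 * k * M := by
      have : (i : ℝ) ≤ k := by exact_mod_cast hi.le
      gcongr
    rw [abs_le] at *
    constructor <;> linarith [g1.1, g1.2, h1.1, h1.2]
  refine (abs_sum_le' _ _ _ key).trans ?_
  rw [Finset.sum_const, Finset.card_range, nsmul_eq_mul]
  have g1 : (k : ℝ) * (ε / (2 * (k + 1)) * N) ≤ ε / 2 * N := by
    have : (k : ℝ) * (ε / (2 * (k + 1)) * N) = k / (k + 1) * (ε / 2 * N) := by field_simp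
    rw [this]
    refine mul_le_of_le_one_left (by positivity) ?_
    rw [div_le_one (by positivity)]; linarith
  have g2 : (k : ℝ) * (2 * k * M) ≤ ε / 2 * N := by
    calc (k : ℝ) * (2 * k * M) ≤ (k + 1) * (2 * (k + 1) * (ε / (4 * (k + 1) ^ 2) * N)) := by
          gcongr <;> linarith
      _ = ε / 2 * N := by field_simp; ring
  rw [mul_add]
  linarith

lemma ac_mom (hRH : RHs) : Mom ac := by
  intro q
  obtain ⟨C, hC, h⟩ := Pool.Agent.R320.JL.mom1 hRH q
  obtain ⟨r0, hr0⟩ := eventually_atTop.1 h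
  obtain ⟨r1, hr1⟩ : ∃ r1 : ℕ, r1 = max r0 3 := ⟨_, rfl⟩
  have hlm : ∀ r : ℕ, 0 ≤ Pool.Agent.Y743.CL.lm r := fun r => by
    unfold Pool.Agent.Y743.CL.lm
    exact div_nonneg (Real.sqrt_nonneg _) Real.pi_pos.le
  refine ⟨C * (1 + Pool.Agent.Y743.CL.lm r1) ^ q, by
    have := hlm r1
    positivity, fun k hk => ?_⟩
  obtain ⟨r, hr⟩ : ∃ r : ℕ, r = max k r1 := ⟨_, rfl⟩
  have hr_1 : r0 ≤ r := by rw [hr, hr1]; exact (le_max_left _ _).trans (le_max_right _ _)
  have hr_3 : 3 ≤ r := by rw [hr, hr1]; exact (le_max_right _ _).trans (le_max_right _ _)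
  have hkr : k ≤ r := by rw [hr]; exact le_max_left _ _
  have hr3 : (3 : ℝ) ≤ r := by exact_mod_cast hr_3
  have hlr : 0 < Real.log r := Real.log_pos (by linarith)
  have hlmr : 0 < Pool.Agent.Y743.CL.lm r := by
    unfold Pool.Agent.Y743.CL.lm
    exact div_pos (Real.sqrt_pos.2 hlr) Real.pi_pos
  have hk1 : (1 : ℝ) ≤ k := by exact_mod_cast hk
  have hlk := Real.log_nonneg hk1
  have hlmle : Pool.Agent.Y743.CL.lm r ≤ (1 + Pool.Agent.Y743.CL.lm r1) * (1 + Real.log k) := by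
    rcases le_total k r1 with h1 | h1
    · have : r = r1 := by rw [hr]; exact max_eq_right h1
      rw [this]
      nlinarith [hlm r1, mul_nonneg (hlm r1) hlk]
    · have : r = k := by rw [hr]; exact max_eq_left h1
      rw [this]
      have g1 : Pool.Agent.Y743.CL.lm k ≤ 1 + Real.log k := by
        unfold Pool.Agent.Y743.CL.lm
        have g2 : Real.sqrt (Real.log k) ≤ 1 + Real.log k := by
          rw [Real.sqrt_le_left (by linarith)]
          nlinarith
        refine (div_le_self (Real.sqrt_nonneg _) ?_).trans g2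
        linarith [Real.pi_gt_three]
      nlinarith [hlm r1, mul_nonneg (hlm r1) hlk]
  have hev : ∀ᶠ N : ℕ in atTop, (r : ℝ) * Real.log r ≤ Real.log N :=
    (Real.tendsto_log_atTop.comp tendsto_natCast_atTop_atTop).eventually_ge_atTop _
  filter_upwards [hev, eventually_ge_atTop 1] with N hN hN1
  have hN0 : (0 : ℝ) < N := by exact_mod_cast hN1
  have h2 := hr0 r hr_1 N hN1 hN k hk hkr
  unfold Av
  rw [one_div, inv_mul_le_iff₀ hN0]
  have e : ∀ n, |dd ac k n| ^ q = Pool.Agent.Y743.CL.lm r ^ q *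
      |(SS k n - k) / Pool.Agent.Y743.CL.lm r| ^ q := by
    intro n
    have : dd ac k n = SS k n - k := by rw [← dd_ac]; ring
    rw [this, abs_div, abs_of_pos hlmr, div_pow]
    field_simp
  simp_rw [e]
  rw [← Finset.mul_sum]
  have h3 : Pool.Agent.Y743.CL.lm r ^ q ≤
      ((1 + Pool.Agent.Y743.CL.lm r1) * (1 + Real.log k)) ^ q :=
    pow_le_pow_left₀ hlmr.le hlmle q
  calc Pool.Agent.Y743.CL.lm r ^ q * ∑ n ∈ Finset.Icc 1 N,
        |(SS k n - k) / Pool.Agent.Y743.CL.lm r| ^ q ≤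
      ((1 + Pool.Agent.Y743.CL.lm r1) * (1 + Real.log k)) ^ q * (C * N) :=
        mul_le_mul h3 h2 (Finset.sum_nonneg fun n _ => by positivity) (by
          have := hlm r1
          positivity)
    _ = N * (C * (1 + Pool.Agent.Y743.CL.lm r1) ^ q * (1 + Real.log k) ^ q) := by
        rw [mul_pow]; ring

lemma ac_pr (RH : RiemannHypothesis) {B : ℝ} {Φ : ℝ → ℝ} (hΦ : Tf B Φ) (h : ℝ) (hh : B < h) :
    Pr ac Φ h := by
  have hh0 : 0 < h := hΦ.pos.trans hh
  have hsc := (sc_tf hΦ hh0).adm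
  obtain ⟨Q, hQ⟩ := fl_bound hsc
  obtain ⟨Lp, -, hLp⟩ := fl_lip hsc
  have hg := gs_fl hh0 Φ
  rw [hg] at hQ hLp
  have hlim := test_limRH RH hsc (div_pos hΦ.pos hh0) (by rw [div_lt_one hh0]; exact hh)
  rw [hg, cc_sc hh0] at hlim
  intro ε hε
  obtain ⟨K0, hK0⟩ := pairN RH (gs_even h Φ) hQ hLp hlim hε
  refine ⟨K0, fun K hK => ?_⟩
  filter_upwards [hK0 K hK] with N hN
  simp_rw [dd_ac]
  exact hN

/-- **the quadratic form of the centred gaps** -/
theorem qf_zeta (RH : RiemannHypothesis) (hRH : RHs) {B : ℝ} {Φ : ℝ → ℝ} (hΦ : Tf B Φ) {ε : ℝ}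
    (hε : 0 < ε) : ∀ᶠ h : ℝ in atTop, ∀ᶠ N : ℕ in atTop, |QF ac Φ h N - J Φ| ≤ ε :=
  qf_lim (ac_growth hRH) (ac_mean hRH) (ac_mom hRH) hΦ (ac_pr RH hΦ) hε

end Pool.Agent.K6.H57.PN
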